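import Mathlib

/-! The multiplication table of the small quantum product in dimension four. -/

set_option autoImplicit false

open Matrix

noncomputable section

namespace Pool.Agent.Lib.MP_1c0d65_gt.PW

variable {n : ℕ}

/-- The group ring of the lattice of homology classes. -/
abbrev Nov (n : ℕ) : Type := AddMonoidAlgebra ℤ (Fin n → ℤ)

/-- `R` is the small quantum cohomology ring over `Nov n`, with the basis `b`: `b (inl i)` are the
classes of degree two, `b (inr 0) = 1`, `b (inr 1)` is the class of a point. `G` is the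
intersection matrix, `c ⬝ᵥ A` the Chern number of `A`, `N A` the number of spheres. -/
def IsQT (G : Matrix (Fin n) (Fin n) ℤ) (c : Fin n → ℤ) (N : (Fin n → ℤ) →₀ ℕ) {R : Type}
    [CommRing R] [Algebra (Nov n) R] (b : Module.Basis (Fin n ⊕ Fin 2) (Nov n) R) : Prop :=
  let q (m : ℤ) (f : (Fin n → ℤ) → ℤ) : R := N.sum fun A k => (.single A (k * f A) : Nov n) •
    if c ⬝ᵥ A = m then ∑ i, A i • b (.inl i) else if c ⬝ᵥ A = m + 1 then 1 else 0
  b (.inr 0) = 1 ∧ b (.inr 1) * b (.inr 1) = q 3 1 ∧ ∀ i,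
    b (.inl i) * b (.inr 1) = q 2 (fun A => (G *ᵥ A) i) ∧ ∀ j,
      b (.inl i) * b (.inl j) = G i j • b (.inr 1) + q 1 fun A => (G *ᵥ A) i * (G *ᵥ A) j

end Pool.Agent.Lib.MP_1c0d65_gt.PW
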