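import Pool.Agent.Lib.MP_1c0d65_gt.PW.QDefs
import Pool.Agent.Lib.MP_1c0d65_gt.Q.QT

/-! The multiplication table of the quantum product on a basis. -/

set_option autoImplicit false

open Finset Matrix

noncomputable section

namespace Pool.Agent.Lib.MP_1c0d65_gt.PW

variable {n : ℕ} {g : Matrix (Fin n) (Fin n) ℤ} {N : ℕ → (Fin n → ℤ) →₀ ℕ}

/-- Triples as coordinate vectors. -/
def tri (Λ : Type) [CommRing Λ] (n : ℕ) : (Λ × (Fin n → Λ) × Λ) ≃ₗ[Λ] (Fin n ⊕ Fin 2 → Λ) where
  toFun x := Sum.elim x.2.1 ![x.1, x.2.2]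
  invFun f := (f (.inr 0), fun i => f (.inl i), f (.inr 1))
  map_add' x y := by
    funext k
    rcases k with i | i
    · rfl
    · fin_cases i <;> rfl
  map_smul' r x := by
    funext k
    rcases k with i | i
    · rfl
    · fin_cases i <;> rfl
  left_inv x := rfl
  right_inv f := by
    funext k
    rcases k with i | i
    · rfl
    · fin_cases i <;> rfl

theorem ev_single {Λ : Type} [CommRing Λ] (i : Fin n) (A : Fin n → ℤ) :
    ev g (Pi.single i (1 : Λ)) A = ((g *ᵥ A) i : ℤ) := by
  simp [ev, Pi.single_apply]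

theorem ev_zero {Λ : Type} [CommRing Λ] (A : Fin n → ℤ) : ev g (0 : Fin n → Λ) A = 0 := by
  simp [ev]

theorem IsQH.table {R : Type} [CommRing R] [Algebra (Nov n) R]
    (h : IsQH g N (fun A => (.single A 1 : Nov n)) R) {z : Fin n → ℤ}
    (hz : ∀ m < 4, ∀ A, N m A ≠ 0 → z ⬝ᵥ A = m + 1) :
    ∃ b : Module.Basis (Fin n ⊕ Fin 2) (Nov n) R, IsQT g z (∑ m ∈ range 4, N m) b := by
  obtain ⟨φ, hφ⟩ := h
  let b := Module.Basis.ofEquivFun (φ.symm.trans (tri (Nov n) n))
  have hb : ∀ k, b k = φ ((tri (Nov n) n).symm (Pi.single k 1)) := fun k => by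
    simp only [b, Module.Basis.coe_ofEquivFun]
    rfl
  have b0 : b (.inr 0) = φ (1, 0, 0) := by
    rw [hb]; congr 1
  have b1 : b (.inr 1) = φ (0, 0, 1) := by
    rw [hb]; congr 1
  have bi : ∀ i, b (.inl i) = φ (0, Pi.single i 1, 0) := fun i => by
    rw [hb]; congr 1
    refine Prod.ext rfl (Prod.ext (funext fun j => ?_) rfl)
    change (Pi.single (Sum.inl i) 1 : Fin n ⊕ Fin 2 → Nov n) (.inl j) = _
    simp [Pi.single_apply]
  have one : φ (1, 0, 0) = 1 := by
    have := hφ (1, 0, 0) (φ.symm 1)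
    rw [φ.apply_symm_apply, mul_one] at this
    rw [← this, ← φ.apply_symm_apply 1]
    congr 1
    refine Prod.ext ?_ (Prod.ext (funext fun j => ?_) ?_) <;> simp [qmul, gw, ev_zero]
  have dec : ∀ a v s, φ (a, v, s) = a • 1 + ∑ i, v i • b (.inl i) + s • b (.inr 1) := fun a v s => by
    simp only [← one, bi, b1, ← map_smul, ← map_sum, ← map_add]
    congr 1
    refine Prod.ext (by simp [Prod.fst_sum]) (Prod.ext (funext fun j => ?_)
      (by simp [Prod.snd_sum]))
    simp [Prod.snd_sum, Prod.fst_sum, Pi.single_apply]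
  have key : ∀ (x y : Nov n × (Fin n → Nov n) × Nov n) (t : ℕ) (f : (Fin n → ℤ) → ℤ),
      x.1 = 0 → y.1 = 0 →
      (∀ m A, gw g N (fun A => (.single A 1 : Nov n)) x y m 1 A =
        if m = t + 1 then .single A (N m A * f A) else 0) →
      (∀ m A, gw g N (fun A => (.single A 1 : Nov n)) x y m 0 A =
        if m = t then .single A (N m A * f A) else 0) →
      φ x * φ y = (∑ i, ∑ j, g i j • (x.2.1 i * y.2.1 j)) • b (.inr 1) +
        (∑ m ∈ range 4, N m).sum fun A k => (.single A (k * f A) : Nov n) •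
          if z ⬝ᵥ A = t + 1 then ∑ i, A i • b (.inl i) else if z ⬝ᵥ A = t + 1 + 1 then 1 else 0 :=
    fun x y t f hx hy h1 h0 => by
    rw [← hφ, qmul, dec, ← Finsupp.sum_finsetSum_index (by simp)
      (fun A k k' => by rw [Nat.cast_add, add_mul, AddMonoidAlgebra.single_add, add_smul])]
    simp only [hx, hy, h1, h0, zero_mul, zero_smul, zero_add]
    rw [add_comm]
    congr 1
    simp only [Finset.sum_apply, sum_smul]
    rw [sum_comm (s := univ), ← sum_add_distrib]
    refine sum_congr rfl fun m hm => ?_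
    rw [Finsupp.sum, sum_comm (s := univ), ← sum_add_distrib]
    refine sum_congr rfl fun A hA => ?_
    rw [hz m (mem_range.1 hm) A (Finsupp.mem_support_iff.1 hA)]
    by_cases e : m = t
    · subst e
      simp only [if_true, if_neg (Nat.succ_ne_self m).symm, zero_smul, zero_add, smul_sum]
      exact sum_congr rfl fun i _ => by rw [smul_assoc, smul_comm]
    · rw [if_neg (show ¬ (m : ℤ) + 1 = t + 1 by omega)]
      by_cases e' : m = t + 1
      · subst e'
        simp
      · rw [if_neg (show ¬ (m : ℤ) + 1 = t + 1 + 1 by omega)]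
        simp [e, e']
  have sg : ∀ (A : Fin n → ℤ) (k : ℕ) (r : ℤ),
      (AddMonoidAlgebra.single A 1 : Nov n) * k * r = .single A (k * r) := fun A k r => by
    rw [mul_assoc, ← Int.cast_natCast, ← Int.cast_mul, mul_comm, ← zsmul_eq_mul,
      AddMonoidAlgebra.smul_single, smul_eq_mul, mul_one]
  refine ⟨b, b0.trans one, ?_, fun i => ⟨?_, fun j => ?_⟩⟩
  · rw [b1, key _ _ 2 1 rfl rfl (fun m A => ?_) fun m A => ?_]
    · simp
    all_goals
      rw [← sg]
      simp only [gw, ev_zero]
      split_ifs <;> first | omega | simp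
  · rw [b1, bi, key _ _ 1 (fun A => (g *ᵥ A) i) rfl rfl (fun m A => ?_) fun m A => ?_]
    · simp
    all_goals
      rw [← sg]
      simp only [gw, ev_zero, ev_single]
      split_ifs <;> first | omega | simp
  · rw [bi, bi, key _ _ 0 (fun A => (g *ᵥ A) i * (g *ᵥ A) j) rfl rfl (fun m A => ?_) fun m A => ?_]
    · simp [Pi.single_apply, Algebra.smul_def]
    all_goals
      rw [← sg]
      simp only [gw, ev_single]
      split_ifs <;> first | omega | simp

end Pool.Agent.Lib.MP_1c0d65_gt.PW
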