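import Pool.Agent.Lib.MP_1c0d65_gt.PW.Ex

/-! Classes of spheres in coordinates: adjunction and positivity of intersections. -/

set_option autoImplicit false
set_option linter.unusedSectionVars false

open scoped Manifold ContDiff Topology
open Set MeasureTheory Filter Metric

noncomputable section

namespace Pool.Agent.Lib.MP_1c0d65_gt.PW

variable {X : Type} [TopologicalSpace X] [ChartedSpace E X] [IsManifold 𝓘(ℝ, E) ∞ X]
  [T2Space X] [CompactSpace X] [MeasurableSpace X] [BorelSpace X] {c : Ctx X}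
  {J : X → E →L[ℝ] E} {hJ : Tame univ c.om J} {A B : Fin (c.k + 1) → ℝ}

/-- The intersection form in coordinates. -/
def Ctx.dot (c : Ctx X) (a b : Fin (c.k + 1) → ℝ) : ℝ := ∑ i, ∑ j, a i * c.G i j * b j

/-- The sphere `u` is dual to `∑ A i • e i`. -/
def Ctx.Cls (c : Ctx X) (u : ℂ → X) (A : Fin (c.k + 1) → ℝ) : Prop :=
  ∀ j, per u (c.e j) = ∑ i, A i * c.G i j

/-- `α` is cohomologous to `∑ r i • e i`. -/
def Ctx.Co (c : Ctx X) (α : X → Bil E ℝ) (r : Fin (c.k + 1) → ℝ) : Prop :=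
  ∃ a, IsD univ a (α - ∑ i, r i • c.e i)

theorem Ctx.dot_comm (c : Ctx X) (a b : Fin (c.k + 1) → ℝ) : c.dot a b = c.dot b a := by
  rw [Ctx.dot, Finset.sum_comm]
  exact Finset.sum_congr rfl fun i _ => Finset.sum_congr rfl fun j _ => by
    rw [c.G_symm j i]; ring

theorem Ctx.vec_inj (c : Ctx X) {a b : Fin (c.k + 1) → ℝ}
    (h : ∀ j, ∑ i, a i * c.G i j = ∑ i, b i * c.G i j) : a = b :=
  sub_eq_zero.1 (Matrix.eq_zero_of_vecMul_eq_zero c.hG (funext fun j => by
    simp only [Matrix.vecMul, dotProduct, Pi.sub_apply, sub_mul, Finset.sum_sub_distrib, h j,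
      sub_self, Pi.zero_apply]))

theorem Ctx.Co.Q {α β : X → Bil E ℝ} {r s : Fin (c.k + 1) → ℝ} (h : c.Co α r) (h' : c.Co β s)
    (hα : Closed α) (hβ : Closed β) : c.Q α β = c.dot r s := by
  obtain ⟨a, h⟩ := h
  obtain ⟨b, h'⟩ := h'
  rw [Q_of_span hα.1 hβ h]
  refine Finset.sum_congr rfl fun i _ => ?_
  rw [Q_symm, Q_basis hβ.1 h', Finset.mul_sum]
  exact Finset.sum_congr rfl fun j _ => by rw [c.G_symm j i]; ring

theorem TC.per_span (C : TC c J hJ) {α : X → Bil E ℝ} (hα : Form univ α)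
    {r : Fin (c.k + 1) → ℝ} (h : c.Co α r) : per C.u α = ∑ i, r i * per C.u (c.e i) := by
  obtain ⟨a, h⟩ := h
  have h0 := C.per_exact0 h isOpen_empty (iUnion_subset fun i => i.elim0) (fun _ h => h.elim)
  have hi := fun {β} (hβ : Form univ β) => C.integrable hβ (Or.inl (ex_test_triv hJ β))
  have e : ∀ s, pull2 C.u (α - ∑ i, r i • c.e i) s 1 .I =
      pull2 C.u α s 1 .I - ∑ i, r i * pull2 C.u (c.e i) s 1 .I := fun s => by
    simp [pull2_apply, Finset.sum_apply]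
  simp only [per, e] at h0 ⊢
  rw [integral_sub (hi hα) (integrable_finsetSum _ fun i _ => (hi (c.he i).1).const_mul _),
    integral_finsetSum _ fun i _ => (hi (c.he i).1).const_mul _, sub_eq_zero] at h0
  simpa only [integral_const_mul] using h0

theorem TC.per_cls (C : TC c J hJ) (hA : c.Cls C.u A) {α : X → Bil E ℝ} (hα : Form univ α)
    {r : Fin (c.k + 1) → ℝ} (h : c.Co α r) : per C.u α = c.dot A r := by
  rw [C.per_span hα h, Ctx.dot, Finset.sum_comm]
  exact Finset.sum_congr rfl fun j _ => by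
    rw [hA j, Finset.mul_sum]
    exact Finset.sum_congr rfl fun i _ => by ring

theorem TC.co_dual {C : TC c J hJ} (hA : c.Cls C.u A) {η : X → Bil E ℝ} (hη : C.Dual η) :
    c.Co η A := by
  obtain ⟨r, a, h⟩ := c.span η hη.1
  obtain rfl : r = A := c.vec_inj fun j => by
    rw [← Q_basis hη.1.1 h, hη.2.2.1 _ (c.he j) (ex_test_triv hJ _), hA j]
  exact ⟨a, h⟩

theorem TC.exists_cls (C : TC c J hJ) : ∃ A, c.Cls C.u A := by
  have hs := (Matrix.vecMul_surjective_iff_isUnit (A := c.G)).2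
    ((Matrix.isUnit_iff_isUnit_det _).2 c.hG.isUnit)
  obtain ⟨A, hA⟩ := hs fun j => per C.u (c.e j)
  exact ⟨A, fun j => (congrFun hA j).symm⟩

/-- The adjunction formula. -/
theorem TC.cls_adj (C : TC c J hJ) (hs : C.Simple) (hA : c.Cls C.u A) :
    ∃ k : ℕ, c.dot A A - C.c1 + 2 = k ∧ k ≠ 1 ∧ (k = 0 ↔ C.Emb) := by
  obtain ⟨η, hη⟩ := C.exists_dual hs
  obtain ⟨ι, j, h⟩ := C.exists_mon
  have : IsEmpty C.F := by rw [TC.F_eq C]; infer_instance
  obtain ⟨k, l, -, h1, h2⟩ := C.adj hs hη h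
  rw [C.per_cls hA hη.1.1 (TC.co_dual hA hη)] at h1
  exact ⟨k, by simpa using h1, h2 (TC.F_eq C)⟩

/-- Simple spheres with the same image have the same periods. -/
theorem TC.per_eq (C C' : TC c J hJ) (hs : C.Simple) (hs' : C'.Simple) (h : C.img ⊆ C'.img) :
    C.img = C'.img ∧ ∀ α, Form univ α → per C.u α = per C'.u α := by
  obtain ⟨h1, d, -, hd, h2⟩ := C.cover C' hs' h
  exact ⟨h1, fun α hα => by rw [h2 α hα (Or.inl (ex_test_triv hJ α)), hd hs]; simp⟩

/-- Positivity of intersections. -/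
theorem TC.cls_pos (C C' : TC c J hJ) (hs : C.Simple) (hs' : C'.Simple) (hA : c.Cls C.u A)
    (hB : c.Cls C'.u B) (hne : C.img ≠ C'.img) (T : Finset X)
    (hT : ∀ x ∈ T, x ∈ C.img ∧ x ∈ C'.img) : ∃ k : ℕ, T.card ≤ k ∧ c.dot A B = k := by
  obtain ⟨η, hη⟩ := C.exists_dual hs
  obtain ⟨ι, j, h⟩ := C.exists_mon
  obtain ⟨ι', j', h'⟩ := C'.exists_mon
  have : IsEmpty C.F := by rw [TC.F_eq C]; infer_instance
  obtain ⟨k, h3, h4⟩ := C.pos C' hs hs' (fun h => hne (TC.per_eq C' C hs' hs h).1.symm) hη h h' T hT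
  rw [Finset.univ_eq_empty, Finset.sum_empty, add_zero,
    TC.per_cls C' hB hη.1.1 (TC.co_dual hA hη), c.dot_comm] at h4
  exact ⟨k, h3, h4⟩

theorem TC.cls_eq (C C' : TC c J hJ) (hs : C.Simple) (hs' : C'.Simple) (hA : c.Cls C.u A)
    (hB : c.Cls C'.u B) (h : C.img = C'.img) : A = B :=
  c.vec_inj fun j => by rw [← hA, ← hB, (TC.per_eq C C' hs hs' h.le).2 _ (c.he j).1]

theorem TC.c1_cls (C : TC c J hJ) (hA : c.Cls C.u A) {d : Fin (c.k + 1) → ℝ}
    (hd : c.Co (c.κ • c.om) d) : C.c1 = c.dot A d := by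
  rw [← C.per_cls hA (c.hom.smul c.κ).1 hd, OC.c1, per, per, ← integral_const_mul]
  simp [pull2_apply]

theorem Ctx.Q_om_pos (c : Ctx X) : 0 < c.Q c.om c.om := by
  have e : c.Q c.om c.om = c.μ.real univ := by
    rw [Ctx.Q, pair, integral_congr_ae (g := fun _ => 1) (.of_forall fun x => div_self
      (c.wedge_om_ne x))]
    simp
  rw [e]
  refine lt_of_le_of_ne measureReal_nonneg fun h => ?_
  have h0 : c.μ = 0 := by
    rw [← Measure.measure_univ_eq_zero, ← measureReal_eq_zero_iff]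
    exact h.symm
  refine c.hG (Matrix.det_eq_zero_of_row_eq_zero 0 fun j => ?_)
  rw [← c.form, pair, h0, integral_zero_measure]

theorem Ctx.dot_pos (c : Ctx X) {d : Fin (c.k + 1) → ℝ} (hd : c.Co (c.κ • c.om) d) :
    0 < c.dot d d := by
  rw [← hd.Q hd (c.hom.smul _) (c.hom.smul _), Q_smul_left, Q_smul_right]
  exact mul_pos c.hκ (mul_pos c.hκ c.Q_om_pos)

end Pool.Agent.Lib.MP_1c0d65_gt.PW
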