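import Mathlib

/-! A nondegenerate form with the Hodge index property has a Lorentz basis. -/

set_option autoImplicit false

open Finset

namespace Pool.Agent.Lib.MP_1c0d65_gt.PW

theorem exists_lor {k : ℕ} (B : LinearMap.BilinForm ℝ (Fin (k + 1) → ℝ))
    (symm : ∀ x y, B x y = B y x) (nd : ∀ x, (∀ y, B x y = 0) → x = 0) {d : Fin (k + 1) → ℝ}
    (hd : 0 < B d d) (hodge : ∀ x y, 0 < B x x → B x y = 0 → B y y ≤ 0) :
    ∃ v : Module.Basis (Fin (k + 1)) ℝ (Fin (k + 1) → ℝ),
      ∀ i j, B (v i) (v j) = if i = j then if i = 0 then 1 else -1 else 0 := by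
  obtain ⟨v0, hv0⟩ := LinearMap.BilinForm.exists_orthogonal_basis (B := B)
    ⟨fun x y => by simpa using symm x y⟩
  let v := v0.reindex (finCongr (Module.finrank_fin_fun ℝ))
  have hv : ∀ i j, i ≠ j → B (v i) (v j) = 0 := fun i j h => by
    simp only [v, Module.Basis.reindex_apply]
    exact hv0 fun e => h ((finCongr _).symm.injective e)
  have ex : ∀ i y, B (v i) y = v.repr y i * B (v i) (v i) := fun i y => by
    conv_lhs => rw [← v.sum_repr y, map_sum]
    rw [sum_eq_single i (fun j _ h => by rw [map_smul, hv i j h.symm, smul_zero]) (by simp),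
      map_smul, smul_eq_mul]
  have ne : ∀ i, B (v i) (v i) ≠ 0 := fun i h =>
    v.ne_zero i (nd _ fun y => by rw [ex, h, mul_zero])
  obtain ⟨i0, h0⟩ : ∃ i, 0 < B (v i) (v i) := by
    by_contra h
    push Not at h
    have : B d d = ∑ i, v.repr d i * (v.repr d i * B (v i) (v i)) := by
      conv_lhs => rw [← LinearMap.flip_apply (f := B), ← v.sum_repr d, map_sum]
      refine sum_congr rfl fun i _ => ?_
      rw [map_smul, LinearMap.flip_apply, v.sum_repr, ex, smul_eq_mul]
    rw [this] at hd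
    refine hd.not_ge (sum_nonpos fun i _ => ?_)
    rw [← mul_assoc]
    exact mul_nonpos_of_nonneg_of_nonpos (mul_self_nonneg _) (h i)
  have neg : ∀ i, i ≠ i0 → B (v i) (v i) < 0 := fun i h =>
    lt_of_le_of_ne (hodge _ _ h0 (hv _ _ h.symm)) (ne i)
  have sq : ∀ i, √|B (v i) (v i)| ≠ 0 := fun i => (Real.sqrt_pos.2 (abs_pos.2 (ne i))).ne'
  let w := (v.unitsSMul fun i => (Units.mk0 _ (sq i))⁻¹).reindex (Equiv.swap 0 i0)
  refine ⟨w, fun i j => ?_⟩
  simp only [w, Module.Basis.reindex_apply, Module.Basis.unitsSMul_apply, Units.smul_def, map_smul,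
    LinearMap.smul_apply, smul_eq_mul, Equiv.symm_swap, Units.val_inv_eq_inv_val, Units.val_mk0]
  split_ifs with h h'
  · subst h h'
    rw [Equiv.swap_apply_left, ← mul_assoc, ← mul_inv, Real.mul_self_sqrt (abs_nonneg _),
      abs_of_pos h0, inv_mul_cancel₀ h0.ne']
  · subst h
    have := neg (Equiv.swap 0 i0 i) fun e => h' (by
      rw [← Equiv.swap_apply_self 0 i0 i, e, Equiv.swap_apply_right])
    rw [← mul_assoc, ← mul_inv, Real.mul_self_sqrt (abs_nonneg _), abs_of_neg this, inv_neg,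
      neg_mul, inv_mul_cancel₀ this.ne]
  · rw [hv _ _ fun e => h ((Equiv.swap 0 i0).injective e), mul_zero, mul_zero]

end Pool.Agent.Lib.MP_1c0d65_gt.PW
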