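import Pool.Agent.Lib.MP_1c0d65_gt.Q.Cls
import Pool.Agent.Lib.MP_1c0d65_gt.Q.Lor
import Pool.Agent.Lib.MP_1c0d65_gt.PW.Asm
import Pool.Agent.Lib.MP_1c0d65_gt.Pi.Geo

/-! The bound for any basis with the Hodge index property. -/

set_option autoImplicit false
set_option linter.unusedSectionVars false

open scoped Manifold ContDiff Topology
open Set MeasureTheory Filter Metric

noncomputable section

namespace Pool.Agent.Lib.MP_1c0d65_gt.PW

variable {X : Type} [TopologicalSpace X] [ChartedSpace E X] [IsManifold 𝓘(ℝ, E) ∞ X]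
  [T2Space X] [CompactSpace X] [MeasurableSpace X] [BorelSpace X] {c : Ctx X}

theorem Ctx.closed_comb (c : Ctx X) (r : Fin (c.k + 1) → ℝ) : Closed (∑ i, r i • c.e i) :=
  Closed.sum fun i _ => (c.he i).smul _

theorem Ctx.co_comb (c : Ctx X) (r : Fin (c.k + 1) → ℝ) : c.Co (∑ i, r i • c.e i) r :=
  ⟨0, by rw [sub_self]; exact isD_zero⟩

/-- The context with another basis. -/
def Ctx.rebase (c : Ctx X) (v : Module.Basis (Fin (c.k + 1)) ℝ (Fin (c.k + 1) → ℝ))
    (hv : ∀ i j, c.dot (v i) (v j) = if i = j then if i = 0 then 1 else -1 else 0) : Ctx X :=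
  { c with
    e := fun i => ∑ j, v i j • c.e j
    he := fun i => c.closed_comb _
    span := fun α hα => by
      obtain ⟨r, a, h⟩ := c.span α hα
      refine ⟨v.repr r, a, ?_⟩
      have e : ∑ i, v.repr r i • ∑ j, v i j • c.e j = ∑ j, r j • c.e j := by
        simp only [Finset.smul_sum, smul_smul]
        rw [Finset.sum_comm]
        refine Finset.sum_congr rfl fun j _ => ?_
        rw [← Finset.sum_smul]
        congr 1
        simpa using congrFun (v.sum_repr r) j
      rwa [e]
    G := Matrix.diagonal fun i => if i = 0 then 1 else -1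
    hG := by
      rw [Matrix.det_diagonal]
      exact Finset.prod_ne_zero_iff.2 fun i _ => by split_ifs <;> norm_num
    form := fun i j => by
      rw [Matrix.diagonal_apply, ← hv]
      exact (c.co_comb _).Q (c.co_comb _) (c.closed_comb _) (c.closed_comb _) }

theorem fin_main [ConnectedSpace X]
    (hodge : ∀ x y, 0 < c.dot x x → c.dot x y = 0 → c.dot y y ≤ 0) {r : ℕ}
    (S : Fin r → OC (Orb.triv c c.J0 c.tame0)) (hS : ∀ i, (S i).Emb)
    (c1 : ∀ i, (S i).c1 = 2 ∨ (S i).c1 = 3) (deg : r + 3 ≤ ∑ i, (S i).c1)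
    (dual : ∀ α, Closed α → ∑ i, per (S i).u α = c.κ * c.Q c.om α)
    {n : ℕ} (L : Fin n → Set X) (hL : ∀ i, Pinwheel c.om (L i))
    (disj : ∀ i j, i ≠ j → Disjoint (L i) (L j)) : n ≤ (c.k + 1) + 2 := by
  have e : ∀ x y, Matrix.toBilin' c.G x y = c.dot x y := fun x y => Matrix.toBilin'_apply _ _ _
  obtain ⟨d, hd⟩ := c.span _ (c.hom.smul c.κ)
  obtain ⟨v, hv⟩ := exists_lor (Matrix.toBilin' c.G) (fun x y => by rw [e, e, c.dot_comm])
    (fun x hx => c.vec_inj fun j => by
      have := hx (Pi.single j 1)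
      simpa [e, Ctx.dot, Pi.single_apply] using this)
    (d := d) (by rw [e]; exact c.dot_pos hd) (by simpa only [e] using hodge)
  let c' := c.rebase v (by simpa only [e] using hv)
  have hL' : c'.Lor := fun i j => Matrix.diagonal_apply _ _ _
  let S' : Fin r → OC (Orb.triv c' c'.J0 c'.tame0) := fun i =>
    ⟨(S i).u, (S i).v, (S i).F, (S i).hu, (S i).mu, (S i).hv, (S i).v0, (S i).uv, (S i).pu, (S i).nc⟩
  have := (tools c' hL').simplyConnected S' hS c1 deg dual
  exact asm_main (c := c') hL' S' hS c1 deg dual L hL disj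

end Pool.Agent.Lib.MP_1c0d65_gt.PW
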