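import Pool.Agent.Lib.MP_1c0d65_gt.Q.Vol
import Pool.Agent.Lib.MP_1c0d65_gt.Nz.GMain

/-! The bound from the quantum cohomology ring, without the Noether hypothesis. -/

set_option autoImplicit false

open scoped Manifold ContDiff Topology TensorProduct
open Set MeasureTheory Matrix

noncomputable section

namespace Pool.Agent.Lib.MP_1c0d65_gt.PW

theorem quantum_h1 (X : Type) [TopologicalSpace X] [ChartedSpace E X] [IsManifold 𝓘(ℝ, E) ∞ X]
    [T2Space X] [CompactSpace X] [ConnectedSpace X] [MeasurableSpace X] [BorelSpace X]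
    (om : X → Bil E ℝ) (J : X → E →L[ℝ] E) (μ : Measure X) (κ : ℝ)
    (hom : Closed om) (hJ : Tame univ om J) (hc : ∀ x v w, om x (J x v) (J x w) = om x v w)
    (hμ : IsVol om μ) (hκ : 0 < κ) (mono : IsChern univ J ((2 * Real.pi * κ) • om))
    (b : ℕ) (e : Fin b → X → Bil E ℝ) (he : ∀ i, Closed (e i))
    (span : ∀ α, Closed α → ∃ (c : Fin b → ℝ) (a : X → E →L[ℝ] ℝ),
      IsD univ a (α - ∑ i, c i • e i))
    (g : Matrix (Fin b) (Fin b) ℤ) (hg : g.det ≠ 0) (form : ∀ i j, pair om μ (e i) (e j) = g i j)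
    (z : Fin b → ℤ) (hz : ∀ i, κ * pair om μ om (e i) = z i)
    (h1 : Nz.H1 X)
    (P : Fin 3 → X) (N : ℕ → (Fin b → ℤ) →₀ ℕ)
    (hN : Counts J (fun u => κ * per u om) e g P N)
    (R : Type) [CommRing R] [Algebra (Nov b) R]
    (hR : IsQH g N (fun A => (.single A 1 : Nov b)) R)
    (K : Type) [Field K] [Algebra (Nov b) K]
    (hK : ∀ A : Fin b → ℤ, z ⬝ᵥ A = 0 → algebraMap (Nov b) K (.single A 1) = 1)
    (ss : IsSemisimpleRing (K ⊗[Nov b] R))
    (n : ℕ) (L : Fin n → Set X) (hL : ∀ i, Pinwheel om (L i))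
    (disj : ∀ i j, i ≠ j → Disjoint (L i) (L j)) : n ≤ Module.finrank K (K ⊗[Nov b] R) :=
  quantum X om J μ κ hom hJ hc hμ hκ mono b e he span g hg form z hz
    (noether_of (fun c => Nz.noether c h1) hom hJ hc hμ hκ mono he span hg form)
    P N hN R hR K hK ss n L hL disj

end Pool.Agent.Lib.MP_1c0d65_gt.PW
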