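import Pool.Agent.Lib.MP_1c0d65_gt.QN.Main

/-! From integral data to the numerical structure and back. -/

set_option autoImplicit false

open Finset Matrix

noncomputable section

namespace Pool.Agent.Lib.MP_1c0d65_gt.PW

open QN

variable {n : ℕ} {G : Matrix (Fin n) (Fin n) ℤ} {c : Fin n → ℤ} {N : (Fin n → ℤ) →₀ ℕ}

/-- The real vector of an integral class. -/
def rv (A : Fin n → ℤ) : Fin n → ℝ := fun i => A i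

theorem rv_inj : Function.Injective (rv (n := n)) := fun _ _ h =>
  funext fun i => Int.cast_injective (congrFun h i)

theorem rv_sub (A B : Fin n → ℤ) : rv (A - B) = rv A - rv B := funext fun i => by simp [rv]

/-- The real intersection form. -/
def Bf (G : Matrix (Fin n) (Fin n) ℤ) : LinearMap.BilinForm ℝ (Fin n → ℝ) :=
  Matrix.toBilin' (G.map (↑))

theorem Bf_apply (x y : Fin n → ℝ) : Bf G x y = ∑ i, ∑ j, x i * G i j * y j := by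
  simp [Bf, Matrix.toBilin'_apply]

theorem Bf_rv (x : Fin n → ℝ) (A : Fin n → ℤ) : Bf G x (rv A) = ∑ i, x i * ((G *ᵥ A) i : ℝ) := by
  simp [Bf_apply, rv, mulVec, dotProduct, mul_sum, mul_assoc]

theorem Bf_rv_rv (A B : Fin n → ℤ) : Bf G (rv A) (rv B) = (A ⬝ᵥ G *ᵥ B : ℤ) := by
  rw [Bf_rv]
  simp [rv, dotProduct]

/-- The counts as a function of real vectors. -/
def Nf (c : Fin n → ℤ) (N : (Fin n → ℤ) →₀ ℕ) : (Fin n → ℝ) → ℕ :=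
  Function.extend rv (fun A => if 1 ≤ c ⬝ᵥ A ∧ c ⬝ᵥ A ≤ 4 then N A else 0) 0

theorem Nf_rv {A : Fin n → ℤ} (h : 1 ≤ c ⬝ᵥ A ∧ c ⬝ᵥ A ≤ 4) : Nf c N (rv A) = N A := by
  rw [Nf, rv_inj.extend_apply, if_pos h]

theorem Nf_ne {x : Fin n → ℝ} :
    Nf c N x ≠ 0 ↔ ∃ A, (N A ≠ 0 ∧ 1 ≤ c ⬝ᵥ A ∧ c ⬝ᵥ A ≤ 4) ∧ rv A = x := by
  refine ⟨fun h => ?_, fun ⟨A, h, e⟩ => by rw [← e, Nf_rv h.2]; exact h.1⟩
  by_cases hx : ∃ A, rv A = x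
  · obtain ⟨A, rfl⟩ := hx
    rw [Nf, rv_inj.extend_apply] at h
    split_ifs at h with h'
    exacts [⟨A, ⟨h, h'⟩, rfl⟩, (h rfl).elim]
  · rw [Nf, Function.extend_apply' _ _ _ hx] at h
    exact (h rfl).elim

open scoped Classical in
/-- The counted classes. -/
def Sf (c : Fin n → ℤ) (N : (Fin n → ℤ) →₀ ℕ) : Finset (Fin n → ℝ) :=
  (N.support.filter fun A => 1 ≤ c ⬝ᵥ A ∧ c ⬝ᵥ A ≤ 4).image rv

theorem mem_Sf {x : Fin n → ℝ} :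
    x ∈ Sf c N ↔ ∃ A, (N A ≠ 0 ∧ 1 ≤ c ⬝ᵥ A ∧ c ⬝ᵥ A ≤ 4) ∧ rv A = x := by
  simp [Sf]

theorem sum_Sf {M : Type} [AddCommMonoid M] (p : (Fin n → ℝ) → Prop) [DecidablePred p]
    (q : (Fin n → ℤ) → Prop) [DecidablePred q]
    (h : ∀ A, q A ↔ (1 ≤ c ⬝ᵥ A ∧ c ⬝ᵥ A ≤ 4) ∧ p (rv A)) (f : (Fin n → ℝ) → M) :
    ∑ x ∈ (Sf c N).filter p, f x = ∑ A ∈ N.support.filter q, f (rv A) := by
  classical
  rw [← sum_image (g := rv) fun _ _ _ _ e => rv_inj e]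
  refine sum_congr (Finset.ext fun x => ?_) fun _ _ => rfl
  simp only [mem_filter, mem_Sf, mem_image, Finsupp.mem_support_iff, h]
  exact ⟨fun ⟨⟨A, h1, e⟩, h2⟩ => ⟨A, ⟨h1.1, h1.2, e ▸ h2⟩, e⟩,
    fun ⟨A, h1, e⟩ => ⟨⟨A, ⟨h1.1, h1.2.1⟩, e⟩, e ▸ h1.2.2⟩⟩

/-- What geometry and the ring give. -/
structure Dat (G : Matrix (Fin n) (Fin n) ℤ) (c : Fin n → ℤ) (N : (Fin n → ℤ) →₀ ℕ)
    (d : Fin n → ℝ) (D : ℕ) : Prop where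
  symm : G.IsSymm
  det : G.det ≠ 0
  hd : ∀ A : Fin n → ℤ, ∑ i, d i * ((G *ᵥ A) i : ℝ) = (c ⬝ᵥ A : ℤ)
  hD : Bf G d d = D
  D0 : 0 < D
  noether : 10 ≤ D + n
  pos : ∀ A B, N A ≠ 0 → N B ≠ 0 → 1 ≤ c ⬝ᵥ A ∧ c ⬝ᵥ A ≤ 4 → 1 ≤ c ⬝ᵥ B ∧ c ⬝ᵥ B ≤ 4 → A ≠ B →
    0 ≤ A ⬝ᵥ G *ᵥ B
  adj : ∀ A, N A ≠ 0 → 1 ≤ c ⬝ᵥ A ∧ c ⬝ᵥ A ≤ 4 → ∃ k : ℕ, k ≠ 1 ∧ A ⬝ᵥ G *ᵥ A = c ⬝ᵥ A - 2 + k
  uniq : ∀ A, N A ≠ 0 → 1 ≤ c ⬝ᵥ A ∧ c ⬝ᵥ A ≤ 4 → A ⬝ᵥ G *ᵥ A < 0 → N A = 1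
  wdvv : ∀ B : Fin n → ℤ, c ⬝ᵥ B = 2 ∨ c ⬝ᵥ B = 3 ∨ c ⬝ᵥ B = 4 → ∀ a : Fin n → ℝ,
    ∑ i, a i * ((G *ᵥ B) i : ℝ) = 0 →
    (if c ⬝ᵥ B = 2 then 2 else 1) * (N B : ℝ) * (-∑ i, ∑ j, a i * G i j * a j) =
      ∑ A ∈ N.support with 1 ≤ c ⬝ᵥ A ∧ 2 * c ⬝ᵥ A ≤ c ⬝ᵥ B,
        (N A : ℝ) * N (B - A) * (A ⬝ᵥ G *ᵥ (B - A) : ℤ) * (∑ i, a i * ((G *ᵥ A) i : ℝ)) ^ 2
  ne : ∃ A, N A ≠ 0 ∧ (c ⬝ᵥ A = 3 ∨ c ⬝ᵥ A = 4)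

variable {d : Fin n → ℝ} {D : ℕ}

theorem Dat.deg (h : Dat G c N d D) (A : Fin n → ℤ) : Bf G d (rv A) = (c ⬝ᵥ A : ℤ) := by
  rw [Bf_rv, h.hd]

theorem Dat.comm (h : Dat G c N d D) (x y : Fin n → ℝ) : Bf G x y = Bf G y x := by
  rw [Bf_apply, Bf_apply, sum_comm]
  exact sum_congr rfl fun i _ => sum_congr rfl fun j _ => by rw [h.symm.apply j i]; ring

/-- The numerical structure. -/
def Dat.num (h : Dat G c N d D) : Num (Fin n → ℝ) where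
  B := Bf G
  symm := h.comm
  nd := fun x hx => Matrix.eq_zero_of_vecMul_eq_zero (M := G.map ((↑) : ℤ → ℝ))
    (by rw [← Int.cast_det]; exact_mod_cast h.det)
    (funext fun j => by
      have := hx (Pi.single j 1)
      simpa [Bf_apply, Pi.single_apply, vecMul, dotProduct] using this)
  c := d
  d := D
  hd := h.hD
  d0 := h.D0
  S := Sf c N
  N := Nf c N
  hN := fun A => Nf_ne.trans mem_Sf.symm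
  deg := fun x hx => by
    obtain ⟨A, h1, rfl⟩ := mem_Sf.1 hx
    rw [h.deg]
    have : c ⬝ᵥ A = 1 ∨ c ⬝ᵥ A = 2 ∨ c ⬝ᵥ A = 3 ∨ c ⬝ᵥ A = 4 := by omega
    exact_mod_cast this
  pos := fun x hx y hy hne => by
    obtain ⟨A, h1, rfl⟩ := mem_Sf.1 hx
    obtain ⟨B, h2, rfl⟩ := mem_Sf.1 hy
    obtain ⟨k, hk⟩ := Int.eq_ofNat_of_zero_le
      (h.pos A B h1.1 h2.1 h1.2 h2.2 fun e => hne (congrArg rv e))
    exact ⟨k, by rw [Bf_rv_rv, hk]; simp⟩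
  adj := fun x hx => by
    obtain ⟨A, h1, rfl⟩ := mem_Sf.1 hx
    obtain ⟨k, h2, h3⟩ := h.adj A h1.1 h1.2
    exact ⟨k, h2, by rw [Bf_rv_rv, h.deg, h3]; push_cast; ring⟩
  uniq := fun x hx h0 => by
    obtain ⟨A, h1, rfl⟩ := mem_Sf.1 hx
    rw [Bf_rv_rv] at h0
    rw [Nf_rv h1.2, h.uniq A h1.1 h1.2 (by exact_mod_cast h0)]
  wdvv := fun x a hx ha => by
    by_cases hB : ∃ B, rv B = x
    · obtain ⟨B, rfl⟩ := hB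
      rw [h.deg] at hx ⊢
      have hx' : c ⬝ᵥ B = 2 ∨ c ⬝ᵥ B = 3 ∨ c ⬝ᵥ B = 4 := by exact_mod_cast hx
      have H := h.wdvv B hx' a (by rwa [Bf_rv] at ha)
      rw [sum_Sf _ (fun A => 1 ≤ c ⬝ᵥ A ∧ 2 * c ⬝ᵥ A ≤ c ⬝ᵥ B) fun A => by
        rw [h.deg]
        have : (2 * ((c ⬝ᵥ A : ℤ) : ℝ) ≤ (c ⬝ᵥ B : ℤ)) ↔ 2 * c ⬝ᵥ A ≤ c ⬝ᵥ B := by norm_cast
        rw [this]
        omega, Nf_rv (by omega), Bf_apply a a]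
      refine Eq.trans ?_ (H.trans (sum_congr rfl fun A hA => ?_))
      · congr 2
        norm_cast
      · have h1 := (mem_filter.1 hA).2
        rw [← rv_sub, Nf_rv (by omega), Nf_rv (by rw [dotProduct_sub]; omega), Bf_rv_rv, Bf_rv]
    · have h0 : Nf c N x = 0 := by
        by_contra h0
        obtain ⟨A, -, e⟩ := Nf_ne.1 h0
        exact hB ⟨A, e⟩
      rw [h0, sum_eq_zero fun y hy => ?_]
      · simp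
      obtain ⟨A, -, rfl⟩ := mem_Sf.1 (mem_filter.1 hy).1
      have h1 : Nf c N (x - rv A) = 0 := by
        by_contra h1
        obtain ⟨B, -, e⟩ := Nf_ne.1 h1
        exact hB ⟨B + A, by rw [← sub_add_cancel x (rv A), ← e]; funext i; simp [rv]⟩
      simp [h1]
  ne := by
    obtain ⟨A, h1, h2⟩ := h.ne
    refine ⟨rv A, mem_Sf.2 ⟨A, ⟨h1, by omega⟩, rfl⟩, ?_⟩
    rw [h.deg]
    exact_mod_cast (by omega : 3 ≤ c ⬝ᵥ A)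
  noether := by simpa using h.noether

theorem Dat.T_eq (h : Dat G c N d D) (x y : Fin n → ℤ) : h.num.T (rv x) (rv y) =
    rv (∑ A ∈ N.support with c ⬝ᵥ A = 1, (N A * (x ⬝ᵥ G *ᵥ A) * (y ⬝ᵥ G *ᵥ A)) • A) := by
  classical
  rw [Num.T]
  refine (sum_Sf (c := c) (N := N) _ (fun A => c ⬝ᵥ A = 1) (fun A => ?_) _).trans ?_
  · change _ ↔ _ ∧ Bf G d (rv A) = 1
    rw [h.deg]
    norm_cast
    omega
  · funext i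
    simp only [rv, Finset.sum_apply, Int.cast_sum]
    refine sum_congr rfl fun A hA => ?_
    have h1 := (mem_filter.1 hA).2
    change (((Nf c N (rv A) : ℝ) * Bf G (rv x) (rv A) * Bf G (rv y) (rv A)) • rv A) i = _
    rw [Nf_rv (by omega), Bf_rv_rv, Bf_rv_rv]
    simp [rv]

theorem Dat.good (h : Dat G c N d D) {T : (Fin n → ℤ) → (Fin n → ℤ) → Fin n → ℤ}
    (hT : ∀ x y, T x y =
      ∑ A ∈ N.support with c ⬝ᵥ A = 1, (N A * (x ⬝ᵥ G *ᵥ A) * (y ⬝ᵥ G *ᵥ A)) • A)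
    (nil : ∀ x y z E E' : Fin n → ℤ, x ⬝ᵥ G *ᵥ y = 0 → x ⬝ᵥ G *ᵥ z = 0 → y ⬝ᵥ G *ᵥ z = 0 →
      x ⬝ᵥ G *ᵥ x = y ⬝ᵥ G *ᵥ y → T x y = 0 → T x z = 0 → T y z = 0 → T x x = T y y →
      x ⬝ᵥ G *ᵥ E = -1 → x ⬝ᵥ G *ᵥ E' = 0 → z ⬝ᵥ G *ᵥ E' = 1 → False) :
    ∃ (r : ℕ) (A : Fin r → Fin n → ℤ), (∀ i, N (A i) ≠ 0 ∧ (c ⬝ᵥ A i = 2 ∨ c ⬝ᵥ A i = 3) ∧
      A i ⬝ᵥ G *ᵥ A i = c ⬝ᵥ A i - 2) ∧ ∑ i, rv (A i) = d ∧ r + 3 ≤ D := by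
  rcases h.num.good_or_bad with ⟨r, x, h1, h2, h3⟩ | hb
  · have hx : ∀ i, x i ∈ Sf c N := fun i => (h1 i).elim (·.1) (·.1)
    choose A hA e using fun i => mem_Sf.1 (hx i)
    refine ⟨r, A, fun i => ⟨(hA i).1, ?_⟩, by simp only [e]; exact h2, h3⟩
    rcases h1 i with ⟨-, h4, h5⟩ | ⟨-, h4, h5⟩ <;>
    · change Bf G d _ = _ at h4
      change Bf G _ _ = _ at h5
      rw [← e, h.deg] at h4
      rw [← e, Bf_rv_rv] at h5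
      norm_cast at h4 h5
      omega
  · exfalso
    obtain ⟨_, m1, _, m2, _, m3, _, m4, _, m5, _, m6, _, _, _, rfl, rfl, rfl, H⟩ := hb
    obtain ⟨E1, -, rfl⟩ := mem_Sf.1 m1
    obtain ⟨E2, -, rfl⟩ := mem_Sf.1 m2
    obtain ⟨E3, -, rfl⟩ := mem_Sf.1 m3
    obtain ⟨E4, -, rfl⟩ := mem_Sf.1 m4
    obtain ⟨E5, -, rfl⟩ := mem_Sf.1 m5
    obtain ⟨E6, -, rfl⟩ := mem_Sf.1 m6
    have e0 : (0 : Fin n → ℝ) = rv 0 := funext fun i => by simp [rv]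
    have eB : h.num.B = Bf G := rfl
    simp only [← rv_sub, h.T_eq, ← hT, eB, Bf_rv_rv, e0, rv_inj.eq_iff] at H
    norm_cast at H
    obtain ⟨a1, a2, a3, a4, a5, a6, a7, a8, a9, a10, a11⟩ := H
    exact nil _ _ _ E1 E6 a1 a2 a3 a4 a5 a6 a7 a8 a9 a10 a11

end Pool.Agent.Lib.MP_1c0d65_gt.PW
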