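import Pool.Agent.Lib.MP_1c0d65_gt.Q.QT

/-! Rank and nilpotent elements of the small quantum ring over a field. -/

set_option autoImplicit false

open scoped TensorProduct
open Finset Matrix

noncomputable section

namespace Pool.Agent.Lib.MP_1c0d65_gt.PW

variable {n : ℕ} {G : Matrix (Fin n) (Fin n) ℤ} {c : Fin n → ℤ} {N : (Fin n → ℤ) →₀ ℕ}
  {R : Type} [CommRing R] [Algebra (Nov n) R] {b : Module.Basis (Fin n ⊕ Fin 2) (Nov n) R}

variable {K : Type} [Field K] [Algebra (Nov n) K]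

theorem IsQT.rank (b : Module.Basis (Fin n ⊕ Fin 2) (Nov n) R) :
    Module.finrank K (K ⊗[Nov n] R) = n + 2 := by
  simpa using Module.finrank_eq_card_basis (Algebra.TensorProduct.basis K b)

theorem IsQT.ne (h : IsQT G c N b) [IsReduced (K ⊗[Nov n] R)] :
    ∃ A, N A ≠ 0 ∧ (c ⬝ᵥ A = 3 ∨ c ⬝ᵥ A = 4) := by
  by_contra hn
  push Not at hn
  have h0 : b (.inr 1) * b (.inr 1) = 0 := by
    rw [h.2.1]
    refine Finset.sum_eq_zero fun A hA => ?_
    have := hn A (Finsupp.mem_support_iff.1 hA)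
    simp [this.1, this.2]
  refine (Algebra.TensorProduct.basis K b).ne_zero (.inr 1) (IsReduced.eq_zero _ ⟨2, ?_⟩)
  rw [Algebra.TensorProduct.basis_apply, pow_two, Algebra.TensorProduct.tmul_mul_tmul, h0,
    TensorProduct.tmul_zero]

/-- The part of degree two of the product of `x` and `y`. -/
def Tq (G : Matrix (Fin n) (Fin n) ℤ) (c : Fin n → ℤ) (N : (Fin n → ℤ) →₀ ℕ) (x y : Fin n → ℤ) :
    Fin n → ℤ := ∑ A ∈ N.support with c ⬝ᵥ A = 1, (N A * (x ⬝ᵥ G *ᵥ A) * (y ⬝ᵥ G *ᵥ A)) • A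

/-- The element of degree two with the integral coordinates `x`. -/
def nilV (b : Module.Basis (Fin n ⊕ Fin 2) (Nov n) R) (x : Fin n → ℤ) : R :=
  ∑ i, x i • b (.inl i)

theorem nil_mul (h : IsQT G c N b) (x y : Fin n → ℤ) :
    nilV b x * nilV b y = (x ⬝ᵥ G *ᵥ y) • b (.inr 1) + ∑ A ∈ N.support,
      (N A * (x ⬝ᵥ G *ᵥ A) * (y ⬝ᵥ G *ᵥ A)) • (AddMonoidAlgebra.single A 1 : Nov n) •
        if c ⬝ᵥ A = 1 then nilV b A else if c ⬝ᵥ A = 2 then 1 else 0 := by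
  have k : ∀ (A : Fin n → ℤ) (m : ℤ) (w : R),
      (AddMonoidAlgebra.single A m : Nov n) • w = m • (AddMonoidAlgebra.single A 1 : Nov n) • w := by
    intro A m w
    rw [← smul_assoc]
    congr 1
    simp
  have e : ∀ i j, b (.inl i) * b (.inl j) = G i j • b (.inr 1) + ∑ A ∈ N.support,
      (N A * ((G *ᵥ A) i * (G *ᵥ A) j)) • (AddMonoidAlgebra.single A 1 : Nov n) •
        if c ⬝ᵥ A = 1 then nilV b A else if c ⬝ᵥ A = 2 then 1 else 0 := by
    intro i j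
    rw [(h.2.2 i).2 j]
    congr 1
    exact Finset.sum_congr rfl fun A _ => k _ _ _
  have e1 : nilV b x * nilV b y = ∑ i, ∑ j, (x i * y j) • (b (.inl i) * b (.inl j)) := by
    rw [nilV, nilV, Finset.sum_mul_sum]
    simp only [smul_mul_smul_comm]
  rw [e1]
  simp only [e, smul_add, Finset.sum_add_distrib, Finset.smul_sum]
  congr 1
  · simp only [dotProduct, mulVec, Finset.mul_sum, Finset.sum_smul]
    exact Finset.sum_congr rfl fun i _ => Finset.sum_congr rfl fun j _ => by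
      rw [smul_smul]; congr 1; ring
  · simp only [Finset.sum_comm (t := N.support)]
    refine Finset.sum_congr rfl fun A _ => ?_
    have e2 : ∀ v : Fin n → ℤ, v ⬝ᵥ G *ᵥ A = ∑ i, v i * (G *ᵥ A) i := fun _ => rfl
    rw [mul_assoc, e2, e2, Finset.sum_mul_sum, Finset.mul_sum, Finset.sum_smul]
    refine Finset.sum_congr rfl fun i _ => ?_
    rw [Finset.mul_sum, Finset.sum_smul]
    exact Finset.sum_congr rfl fun j _ => by rw [smul_smul]; congr 1; ring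

theorem nil_mulK (h : IsQT G c N b) {u : K}
    (hu : ∀ A, c ⬝ᵥ A = 1 → algebraMap (Nov n) K (.single A 1) = u) (x y : Fin n → ℤ) :
    ∃ s : K, ((1 : K) ⊗ₜ[Nov n] nilV b x) * (1 ⊗ₜ nilV b y) =
      (x ⬝ᵥ G *ᵥ y) • ((1 : K) ⊗ₜ[Nov n] b (.inr 1)) + u • (1 : K) ⊗ₜ nilV b (Tq G c N x y) +
        s • 1 := by
  refine ⟨∑ A ∈ N.support with c ⬝ᵥ A = 2,
    (N A * (x ⬝ᵥ G *ᵥ A) * (y ⬝ᵥ G *ᵥ A)) • algebraMap (Nov n) K (.single A 1), ?_⟩
  have e : nilV b (Tq G c N x y) = ∑ A ∈ N.support with c ⬝ᵥ A = 1,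
      (N A * (x ⬝ᵥ G *ᵥ A) * (y ⬝ᵥ G *ᵥ A)) • nilV b A := by
    simp only [nilV, Tq, Finset.sum_apply, Finset.sum_smul, Finset.smul_sum, Pi.smul_apply,
      smul_eq_mul, smul_smul]
    exact Finset.sum_comm
  rw [Algebra.TensorProduct.tmul_mul_tmul, one_mul, nil_mul h, TensorProduct.tmul_add,
    TensorProduct.tmul_smul, add_assoc, e, TensorProduct.tmul_sum, TensorProduct.tmul_sum,
    Finset.smul_sum, Finset.sum_smul, Finset.sum_filter, Finset.sum_filter,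
    ← Finset.sum_add_distrib]
  congr 1
  refine Finset.sum_congr rfl fun A _ => ?_
  rw [TensorProduct.tmul_smul, TensorProduct.tmul_smul,
    ← algebraMap_smul K (AddMonoidAlgebra.single A 1 : Nov n)]
  by_cases h1 : c ⬝ᵥ A = 1
  · have h2 : ¬ c ⬝ᵥ A = 2 := by omega
    rw [if_pos h1, if_pos h1, if_neg h2, add_zero, hu A h1, TensorProduct.tmul_smul, smul_comm]
  · rw [if_neg h1, if_neg h1, zero_add]
    by_cases h2 : c ⬝ᵥ A = 2
    · rw [if_pos h2, if_pos h2, smul_assoc, Algebra.TensorProduct.one_def]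
    · simp [h2]

theorem nil_fun (h : IsQT G c N b) (E : Fin n → ℤ) :
    ∃ φ : K ⊗[Nov n] R →ₗ[K] K, ∀ x, φ (1 ⊗ₜ nilV b x) = (x ⬝ᵥ G *ᵥ E : ℤ) := by
  refine ⟨(Algebra.TensorProduct.basis K b).constr K
    (Sum.elim (fun i => ((G *ᵥ E) i : K)) 0), fun x => ?_⟩
  simp only [nilV, TensorProduct.tmul_sum, TensorProduct.tmul_smul, map_sum, map_zsmul,
    ← Algebra.TensorProduct.basis_apply, Module.Basis.constr_basis, Sum.elim_inl]
  simp [dotProduct]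

theorem IsQT.nil (h : IsQT G c N b) [IsReduced (K ⊗[Nov n] R)] {u : K}
    (hu : ∀ A, c ⬝ᵥ A = 1 → algebraMap (Nov n) K (.single A 1) = u) {x y z E E' : Fin n → ℤ}
    (xy : x ⬝ᵥ G *ᵥ y = 0) (xz : x ⬝ᵥ G *ᵥ z = 0) (yz : y ⬝ᵥ G *ᵥ z = 0)
    (xx : x ⬝ᵥ G *ᵥ x = y ⬝ᵥ G *ᵥ y) (txy : Tq G c N x y = 0) (txz : Tq G c N x z = 0)
    (tyz : Tq G c N y z = 0) (txx : Tq G c N x x = Tq G c N y y)
    (h1 : x ⬝ᵥ G *ᵥ E = -1) (h2 : x ⬝ᵥ G *ᵥ E' = 0) (h3 : z ⬝ᵥ G *ᵥ E' = 1) : False := by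
  have v0 : nilV b 0 = 0 := by simp [nilV]
  obtain ⟨s, hs⟩ := nil_mulK h hu x y
  obtain ⟨r, hr⟩ := nil_mulK h hu x z
  obtain ⟨t, ht⟩ := nil_mulK h hu y z
  obtain ⟨p, hp⟩ := nil_mulK h hu x x
  obtain ⟨q, hq⟩ := nil_mulK h hu y y
  obtain ⟨φ, hφ⟩ := nil_fun (K := K) h E
  obtain ⟨ψ, hψ⟩ := nil_fun (K := K) h E'
  have f1 := hφ x
  have f2 := hψ x
  have f3 := hψ z
  rw [xy, txy, v0] at hs
  rw [xz, txz, v0] at hr
  rw [yz, tyz, v0] at ht
  rw [xx, txx] at hp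
  rw [h1] at f1
  rw [h2] at f2
  rw [h3] at f3
  generalize (1 : K) ⊗ₜ[Nov n] nilV b x = X at *
  generalize (1 : K) ⊗ₜ[Nov n] nilV b y = Y at *
  generalize (1 : K) ⊗ₜ[Nov n] nilV b z = Z at *
  simp only [zero_smul, TensorProduct.tmul_zero, smul_zero, zero_add] at hs hr ht
  have ha : X * X = Y * Y + (p - q) • 1 := by
    rw [hp, hq, sub_smul]; abel
  have e1 : s • Z = t • X := by
    have : X * Y * Z = X * (Y * Z) := mul_assoc _ _ _
    simpa [hs, ht] using this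
  have s0 : s = 0 := by simpa [f2, f3] using congrArg ψ e1
  have t0 : t = 0 := by simpa [f1, s0] using congrArg φ e1
  have e2 : r • X = (p - q) • Z := by
    have : X * Z * X = Y * (Y * Z) + ((p - q) • 1) * Z := by
      rw [← mul_assoc, ← add_mul, ← ha]; ring
    simpa [hr, ht, t0] using this
  have q0 : p - q = 0 := by simpa [f2, f3] using (congrArg ψ e2).symm
  have x0 : X = 0 := IsReduced.eq_zero _ ⟨3, by
    have : X ^ 3 = X * Y * Y + X * ((p - q) • 1) := by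
      rw [mul_assoc, ← mul_add, ← ha]; ring
    simpa [hs, s0, q0] using this⟩
  simp [x0] at f1

end Pool.Agent.Lib.MP_1c0d65_gt.PW
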