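import Pool.Agent.Lib.MP_1c0d65_gt.Q.QT

/-! Associativity of the quantum product, read in one class. -/

set_option autoImplicit false

open scoped TensorProduct
open Finset Matrix

noncomputable section

namespace Pool.Agent.Lib.MP_1c0d65_gt.PW

variable {n : ℕ} {G : Matrix (Fin n) (Fin n) ℤ} {c : Fin n → ℤ} {N : (Fin n → ℤ) →₀ ℕ}
  {R : Type} [CommRing R] [Algebra (Nov n) R] {b : Module.Basis (Fin n ⊕ Fin 2) (Nov n) R}

namespace QTab

/-- The class which a sphere in the class `A` contributes. -/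
def phi (c : Fin n → ℤ) (b : Module.Basis (Fin n ⊕ Fin 2) (Nov n) R) (m : ℤ) (A : Fin n → ℤ) :
    R := if c ⬝ᵥ A = m then ∑ i, A i • b (.inl i) else if c ⬝ᵥ A = m + 1 then 1 else 0

def psi (c : Fin n → ℤ) (b : Module.Basis (Fin n ⊕ Fin 2) (Nov n) R) (m : ℤ) (A : Fin n → ℤ) :
    R := (.single A 1 : Nov n) • phi c b m A

def qq (c : Fin n → ℤ) (N : (Fin n → ℤ) →₀ ℕ) (b : Module.Basis (Fin n ⊕ Fin 2) (Nov n) R)
    (m : ℤ) (f : (Fin n → ℤ) → ℤ) : R := ∑ A ∈ N.support, ((N A : ℤ) * f A) • psi c b m A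

theorem q_eq (m : ℤ) (f : (Fin n → ℤ) → ℤ) :
    (N.sum fun A k => (.single A (k * f A) : Nov n) •
      if c ⬝ᵥ A = m then ∑ i, A i • b (.inl i) else if c ⬝ᵥ A = m + 1 then 1 else 0) =
      qq c N b m f := by
  refine Finset.sum_congr rfl fun A _ => ?_
  rw [psi, ← smul_assoc, AddMonoidAlgebra.smul_single, smul_eq_mul, mul_one, phi]

theorem table (h : IsQT G c N b) :
    b (.inr 0) = 1 ∧ b (.inr 1) * b (.inr 1) = qq c N b 3 1 ∧ ∀ i,
      b (.inl i) * b (.inr 1) = qq c N b 2 (fun A => (G *ᵥ A) i) ∧ ∀ j,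
        b (.inl i) * b (.inl j) =
          G i j • b (.inr 1) + qq c N b 1 fun A => (G *ᵥ A) i * (G *ᵥ A) j := by
  simpa only [IsQT, q_eq] using h

theorem tr_one (h : IsQT G c N b) : b.coord (.inr 1) 1 = 0 := by
  rw [← (table h).1]; simp

theorem tr_phi (h : IsQT G c N b) (m : ℤ) (A : Fin n → ℤ) :
    b.coord (.inr 1) (phi c b m A) = 0 := by
  unfold phi
  split_ifs
  · simp only [map_sum, map_zsmul]; simp
  · exact tr_one h
  · simp

theorem tr_qq (h : IsQT G c N b) (m : ℤ) (f : (Fin n → ℤ) → ℤ) :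
    b.coord (.inr 1) (qq c N b m f) = 0 := by
  simp only [qq, psi, map_sum, map_zsmul, map_smul, tr_phi h, smul_zero, Finset.sum_const_zero]

theorem tr_pp (h : IsQT G c N b) : b.coord (.inr 1) (b (.inr 1) * b (.inr 1)) = 0 := by
  rw [(table h).2.1, tr_qq h]

theorem tr_ip (h : IsQT G c N b) (i : Fin n) :
    b.coord (.inr 1) (b (.inr 1) * b (.inl i)) = 0 := by
  rw [mul_comm, ((table h).2.2 i).1, tr_qq h]

theorem tr_ij (h : IsQT G c N b) (i j : Fin n) :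
    b.coord (.inr 1) (b (.inl i) * b (.inl j)) = G i j • 1 := by
  rw [((table h).2.2 i).2 j, map_add, tr_qq h, map_zsmul]; simp

theorem tr_p_phi (h : IsQT G c N b) (m : ℤ) (A : Fin n → ℤ) :
    b.coord (.inr 1) (b (.inr 1) * phi c b m A) = if c ⬝ᵥ A = m + 1 then 1 else 0 := by
  unfold phi
  split_ifs with h1 h2
  · omega
  · simp only [Finset.mul_sum, mul_smul_comm, map_sum, map_zsmul, tr_ip h, smul_zero,
      Finset.sum_const_zero]
  · simp
  · simp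

theorem tr_phi_phi (h : IsQT G c N b) (m m' : ℤ) (A A' : Fin n → ℤ) :
    b.coord (.inr 1) (phi c b m A * phi c b m' A') =
      if c ⬝ᵥ A = m ∧ c ⬝ᵥ A' = m' then (A ⬝ᵥ G *ᵥ A') • 1 else 0 := by
  by_cases h1 : c ⬝ᵥ A = m
  · by_cases h2 : c ⬝ᵥ A' = m'
    · rw [if_pos ⟨h1, h2⟩, phi, phi, if_pos h1, if_pos h2]
      simp only [Finset.mul_sum, Finset.sum_mul, mul_smul_comm, smul_mul_assoc, map_sum, map_zsmul,
        tr_ij h, smul_smul, ← Finset.sum_smul, dotProduct, mulVec]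
      rw [Finset.sum_comm]
      congr 1
      exact Finset.sum_congr rfl fun i _ => Finset.sum_congr rfl fun j _ => by ring
    · rw [if_neg fun k => h2 k.2, phi.eq_1 c b m', if_neg h2]
      split_ifs
      · rw [mul_one, tr_phi h]
      · simp
  · rw [if_neg fun k => h1 k.1, phi.eq_1 c b m, if_neg h1]
    split_ifs
    · rw [one_mul, tr_phi h]
    · simp

/-- The coefficient of the class `B` in the coordinate of the point. -/
def tau (b : Module.Basis (Fin n ⊕ Fin 2) (Nov n) R) (B : Fin n → ℤ) : R →ₗ[ℤ] ℝ :=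
  AddMonoidHom.toIntLinearMap
    { toFun := fun r => ((b.coord (.inr 1) r).coeff B : ℤ)
      map_zero' := by simp
      map_add' := fun x y => by simp }

theorem tau_apply (B : Fin n → ℤ) (r : R) :
    tau b B r = ((b.coord (.inr 1) r).coeff B : ℤ) := rfl

theorem tau_pp (h : IsQT G c N b) (B : Fin n → ℤ) : tau b B (b (.inr 1) * b (.inr 1)) = 0 := by
  simp only [tau_apply, tr_pp h]; simp

theorem tau_p_psi (h : IsQT G c N b) (B : Fin n → ℤ) (m : ℤ) (A : Fin n → ℤ) :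
    tau b B (b (.inr 1) * psi c b m A) = if A = B ∧ c ⬝ᵥ B = m + 1 then 1 else 0 := by
  rw [tau_apply, psi, mul_smul_comm, map_smul, tr_p_phi h]
  by_cases hA : A = B
  · subst hA
    by_cases k : c ⬝ᵥ A = m + 1 <;> simp [k]
  · by_cases k : c ⬝ᵥ A = m + 1 <;> simp [k, hA]

theorem tau_psi_psi (h : IsQT G c N b) (B : Fin n → ℤ) (m m' : ℤ) (A A' : Fin n → ℤ) :
    tau b B (psi c b m A * psi c b m' A') =
      if A' = B - A ∧ c ⬝ᵥ A = m ∧ c ⬝ᵥ B = m + m' then ((A ⬝ᵥ G *ᵥ (B - A) : ℤ) : ℝ) else 0 := by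
  rw [tau_apply, psi, psi, smul_mul_smul_comm, map_smul, tr_phi_phi h,
    AddMonoidAlgebra.single_mul_single]
  by_cases hA : A' = B - A
  · subst hA
    have e : c ⬝ᵥ A = m ∧ c ⬝ᵥ (B - A) = m' ↔ c ⬝ᵥ A = m ∧ c ⬝ᵥ B = m + m' := by
      rw [dotProduct_sub]; omega
    by_cases k : c ⬝ᵥ A = m ∧ c ⬝ᵥ B = m + m'
    · rw [if_pos (e.2 k), if_pos ⟨rfl, k⟩, smul_comm, smul_eq_mul, mul_one]; simp
    · rw [if_neg fun k' => k (e.1 k'), if_neg fun k' => k k'.2]; simp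
  · have hne : A + A' ≠ B := fun k => hA (by rw [← k]; abel)
    rw [if_neg fun k : _ ∧ _ => hA k.1]
    split_ifs
    · rw [smul_comm, smul_eq_mul, mul_one]; simp [hne]
    · simp

/-! ### Real coefficients -/

variable {S : Type} [CommRing S] [Algebra ℝ S]

def rho (G : Matrix (Fin n) (Fin n) ℤ) (x : Fin n → ℝ) (A : Fin n → ℤ) : ℝ :=
  ∑ i, x i * ((G *ᵥ A) i : ℝ)

def XX (b : Module.Basis (Fin n ⊕ Fin 2) (Nov n) R) (ι : R →+* S) (x : Fin n → ℝ) : S :=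
  ∑ i, x i • ι (b (.inl i))

def QQ (c : Fin n → ℤ) (N : (Fin n → ℤ) →₀ ℕ) (b : Module.Basis (Fin n ⊕ Fin 2) (Nov n) R)
    (ι : R →+* S) (m : ℤ) (f : (Fin n → ℤ) → ℝ) : S :=
  ∑ A ∈ N.support, ((N A : ℝ) * f A) • ι (psi c b m A)

theorem map_qq (ι : R →+* S) (m : ℤ) (f : (Fin n → ℤ) → ℤ) :
    ι (qq c N b m f) = QQ c N b ι m fun A => f A := by
  simp only [qq, QQ, map_sum, map_zsmul]
  refine Finset.sum_congr rfl fun A _ => ?_
  rw [← Int.cast_smul_eq_zsmul ℝ]; push_cast; rfl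

theorem sum_QQ (ι : R →+* S) (m : ℤ) (x : Fin n → ℝ) (f : Fin n → (Fin n → ℤ) → ℝ) :
    ∑ i, x i • QQ c N b ι m (f i) = QQ c N b ι m fun A => ∑ i, x i * f i A := by
  simp only [QQ, Finset.smul_sum, smul_smul, Finset.mul_sum, Finset.sum_smul]
  rw [Finset.sum_comm]
  exact Finset.sum_congr rfl fun A _ => Finset.sum_congr rfl fun i _ => by
    rw [mul_left_comm]

theorem P_P (h : IsQT G c N b) (ι : R →+* S) :
    ι (b (.inr 1)) * ι (b (.inr 1)) = QQ c N b ι 3 fun _ => 1 := by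
  rw [← map_mul, (table h).2.1, map_qq]; simp

theorem X_P (h : IsQT G c N b) (ι : R →+* S) (x : Fin n → ℝ) :
    XX b ι x * ι (b (.inr 1)) = QQ c N b ι 2 (rho G x) := by
  simp only [XX, Finset.sum_mul, smul_mul_assoc, ← map_mul, fun i => ((table h).2.2 i).1, map_qq,
    sum_QQ]
  rfl

theorem X_X (h : IsQT G c N b) (ι : R →+* S) (x y : Fin n → ℝ) :
    XX b ι x * XX b ι y = (∑ i, ∑ j, x i * G i j * y j) • ι (b (.inr 1)) +
      QQ c N b ι 1 fun A => rho G x A * rho G y A := by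
  have e (i : Fin n) : ι (b (.inl i)) * XX b ι y = (∑ j, G i j * y j) • ι (b (.inr 1)) +
      QQ c N b ι 1 fun A => ((G *ᵥ A) i : ℝ) * rho G y A := by
    simp only [XX, Finset.mul_sum, mul_smul_comm, ← map_mul, ((table h).2.2 i).2, map_add, map_qq,
      smul_add, Finset.sum_add_distrib, sum_QQ, map_zsmul, ← Int.cast_smul_eq_zsmul ℝ, smul_smul,
      Finset.sum_smul, rho]
    congr 1
    · exact Finset.sum_congr rfl fun j _ => by rw [mul_comm]
    · congr 1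
      funext A
      exact Finset.sum_congr rfl fun j _ => by push_cast; ring
  rw [XX.eq_1 b ι x]
  simp only [Finset.sum_mul, smul_mul_assoc, e, smul_add, Finset.sum_add_distrib, sum_QQ,
    smul_smul, ← Finset.sum_smul, Finset.mul_sum, rho, mul_assoc]
  congr 2
  funext A
  exact Finset.sum_comm

variable {ι : R →+* S} {T : S →ₗ[ℝ] ℝ} {B : Fin n → ℤ}

theorem T_PQ (h : IsQT G c N b) (hT : ∀ r, T (ι r) = tau b B r) (m : ℤ) (f : (Fin n → ℤ) → ℝ) :
    T (ι (b (.inr 1)) * QQ c N b ι m f) = if c ⬝ᵥ B = m + 1 then N B * f B else 0 := by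
  simp only [QQ, Finset.mul_sum, mul_smul_comm, map_sum, map_smul, ← map_mul, hT, tau_p_psi h,
    smul_eq_mul]
  rw [Finset.sum_eq_single B]
  · by_cases k : c ⬝ᵥ B = m + 1 <;> simp [k]
  · intro A _ hA; simp [hA]
  · intro hB; simp [Finsupp.notMem_support_iff.1 hB]

theorem T_QQ (h : IsQT G c N b) (hT : ∀ r, T (ι r) = tau b B r) {m m' : ℤ}
    (hB : c ⬝ᵥ B = m + m') (f f' : (Fin n → ℤ) → ℝ) :
    T (QQ c N b ι m f * QQ c N b ι m' f') = ∑ A ∈ N.support with c ⬝ᵥ A = m,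
      (N A : ℝ) * N (B - A) * (A ⬝ᵥ G *ᵥ (B - A) : ℤ) * (f A * f' (B - A)) := by
  rw [QQ, Finset.sum_mul, map_sum, Finset.sum_filter]
  refine Finset.sum_congr rfl fun A _ => ?_
  simp only [QQ, Finset.mul_sum, mul_smul_comm, smul_mul_assoc, map_sum, map_smul, ← map_mul, hT,
    tau_psi_psi h, smul_eq_mul]
  rw [Finset.sum_eq_single (B - A)]
  · by_cases k : c ⬝ᵥ A = m
    · rw [if_pos ⟨rfl, k, hB⟩, if_pos k]; ring
    · rw [if_neg fun k' => k k'.2.1, if_neg k]; ring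
  · intro A' _ hA; simp [hA]
  · intro hA; simp [Finsupp.notMem_support_iff.1 hA]

theorem rho_sub (x : Fin n → ℝ) (A A' : Fin n → ℤ) :
    rho G x (A - A') = rho G x A - rho G x A' := by
  simp only [rho, mulVec_sub, Pi.sub_apply, Int.cast_sub, mul_sub, Finset.sum_sub_distrib]

end QTab

open QTab in
/-- Associativity in the class `B`; `d` is the real vector of the first Chern class. -/
theorem IsQT.wdvv (h : IsQT G c N b) (hG : G.IsSymm) {d : Fin n → ℝ}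
    (hd : ∀ A : Fin n → ℤ, ∑ i, d i * ((G *ᵥ A) i : ℝ) = (c ⬝ᵥ A : ℤ)) (B : Fin n → ℤ)
    (hB : c ⬝ᵥ B = 2 ∨ c ⬝ᵥ B = 3 ∨ c ⬝ᵥ B = 4) (a : Fin n → ℝ)
    (ha : ∑ i, a i * ((G *ᵥ B) i : ℝ) = 0) :
    (if c ⬝ᵥ B = 2 then 2 else 1) * (N B : ℝ) * (-∑ i, ∑ j, a i * G i j * a j) =
      ∑ A ∈ N.support with 1 ≤ c ⬝ᵥ A ∧ 2 * c ⬝ᵥ A ≤ c ⬝ᵥ B,
        (N A : ℝ) * N (B - A) * (A ⬝ᵥ G *ᵥ (B - A) : ℤ) * (∑ i, a i * ((G *ᵥ A) i : ℝ)) ^ 2 := by
  let ι : R →+* ℝ ⊗[ℤ] R := (Algebra.TensorProduct.includeRight (R := ℤ) (A := ℝ)).toRingHom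
  let T : ℝ ⊗[ℤ] R →ₗ[ℝ] ℝ := (tau b B).liftBaseChange ℝ
  have hT : ∀ r, T (ι r) = tau b B r := fun r => by simp [T, ι]
  have hPP : T (ι (b (.inr 1)) * ι (b (.inr 1))) = 0 := by rw [← map_mul, hT, tau_pp h]
  have haB : rho G a B = 0 := ha
  have hd' : ∀ A, rho G d A = (c ⬝ᵥ A : ℤ) := hd
  -- the sum over the classes of degree `m`
  let F (m : ℤ) : ℝ := ∑ A ∈ N.support with c ⬝ᵥ A = m,
    (N A : ℝ) * N (B - A) * (A ⬝ᵥ G *ᵥ (B - A) : ℤ) * rho G a A ^ 2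
  have hF (m : ℤ) (r : ℝ) (g : (Fin n → ℤ) → ℝ) (hg : ∀ A, c ⬝ᵥ A = m → g A = r * rho G a A ^ 2) :
      ∑ A ∈ N.support with c ⬝ᵥ A = m,
        (N A : ℝ) * N (B - A) * (A ⬝ᵥ G *ᵥ (B - A) : ℤ) * g A = r * F m := by
    rw [Finset.mul_sum]
    exact Finset.sum_congr rfl fun A hA => by rw [hg A (Finset.mem_filter.1 hA).2]; ring
  change _ = ∑ A ∈ N.support with 1 ≤ c ⬝ᵥ A ∧ 2 * c ⬝ᵥ A ≤ c ⬝ᵥ B,
    (N A : ℝ) * N (B - A) * (A ⬝ᵥ G *ᵥ (B - A) : ℤ) * rho G a A ^ 2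
  rcases hB with hB | hB | hB
  · have key : T ((XX b ι a * XX b ι a) * (XX b ι d * XX b ι d)) =
        T ((XX b ι a * XX b ι d) * (XX b ι a * XX b ι d)) := by congr 1; ring
    simp only [X_X h, add_mul, mul_add, map_add, smul_mul_assoc, mul_smul_comm, map_smul, hPP,
      mul_comm (QQ c N b ι 1 _) (ι (b (.inr 1))), T_PQ h hT, T_QQ h hT (m := 1) (m' := 1) hB, hB,
      haB, hd', smul_eq_mul] at key
    rw [hF 1 1 _ fun A hA => by rw [dotProduct_sub, hB, hA]; norm_num; ring,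
      hF 1 (-1) _ fun A hA => by rw [dotProduct_sub, hB, hA, rho_sub, haB]; norm_num; ring] at key
    rw [Finset.filter_congr (q := fun A => c ⬝ᵥ A = 1) fun A _ => by omega, if_pos hB]
    change _ = F 1
    norm_num at key
    linarith
  · have key : T ((XX b ι a * XX b ι a) * (XX b ι d * ι (b (.inr 1)))) =
        T ((XX b ι a * XX b ι d) * (XX b ι a * ι (b (.inr 1)))) := by congr 1; ring
    simp only [X_X h, X_P h, add_mul, map_add, smul_mul_assoc, map_smul,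
      T_PQ h hT, T_QQ h hT (m := 1) (m' := 2) hB, hB, haB, hd', smul_eq_mul] at key
    rw [hF 1 2 _ fun A hA => by rw [dotProduct_sub, hB, hA]; norm_num; ring,
      hF 1 (-1) _ fun A hA => by rw [hA, rho_sub, haB]; norm_num; ring] at key
    rw [Finset.filter_congr (q := fun A => c ⬝ᵥ A = 1) fun A _ => by omega, if_neg (by omega)]
    change _ = F 1
    norm_num at key
    linarith
  · have key : T ((XX b ι a * XX b ι a) * (ι (b (.inr 1)) * ι (b (.inr 1)))) =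
        T ((XX b ι a * ι (b (.inr 1))) * (XX b ι a * ι (b (.inr 1)))) := by congr 1; ring
    simp only [X_X h, X_P h, P_P h, add_mul, map_add, smul_mul_assoc, map_smul,
      T_PQ h hT, T_QQ h hT (m := 1) (m' := 3) hB, T_QQ h hT (m := 2) (m' := 2) hB, hB,
      smul_eq_mul] at key
    rw [hF 1 1 _ fun A hA => by ring,
      hF 2 (-1) _ fun A hA => by rw [rho_sub, haB]; ring] at key
    rw [Finset.filter_congr (q := fun A => c ⬝ᵥ A = 1 ∨ c ⬝ᵥ A = 2) fun A _ => by omega,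
      if_neg (by omega), Finset.filter_or, Finset.sum_union (by
        rw [Finset.disjoint_filter]; intro A _ h1 h2; omega)]
    change _ = F 1 + F 2
    norm_num at key
    linarith

end Pool.Agent.Lib.MP_1c0d65_gt.PW
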