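import Pool.Agent.Lib.MP_1c0d65_gt.Q.Adp
import Pool.Agent.Lib.MP_1c0d65_gt.Q.Tab
import Pool.Agent.Lib.MP_1c0d65_gt.Q.Nil
import Pool.Agent.Lib.MP_1c0d65_gt.Q.Mk
import Pool.Agent.Lib.MP_1c0d65_gt.Q.Fin

/-! The bound from the quantum cohomology ring. -/

set_option autoImplicit false
set_option linter.unusedSectionVars false

open scoped Manifold ContDiff Topology TensorProduct
open Set MeasureTheory Filter Metric Matrix

noncomputable section

namespace Pool.Agent.Lib.MP_1c0d65_gt.PW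

variable {X : Type} [TopologicalSpace X] [ChartedSpace E X] [IsManifold 𝓘(ℝ, E) ∞ X]
  [T2Space X] [CompactSpace X] [MeasurableSpace X] [BorelSpace X] {c : Ctx X}

/-- A counted curve is a simple sphere. -/
theorem Sphere.tc (c : Ctx X) {u : ℂ → X} {Z : Set X} (h : Sphere c.J0 u Z)
    (h0 : per u c.om ≠ 0) : ∃ C : TC c c.J0 c.tame0, C.Simple ∧ C.u = u ∧ C.img = Z := by
  obtain ⟨v, hu, hv, uv, ⟨B, inj⟩, rfl⟩ := h
  have hW : ∀ x, x ∈ (Orb.triv c c.J0 c.tame0).W := fun x => by simp [Orb.W, Orb.triv]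
  have nc : ∃ s, dif u s 1 ≠ 0 := by
    by_contra hn
    push Not at hn
    exact h0 (by simp [per, pull2_apply, hn])
  refine ⟨⟨u, v, ∅, by simpa [Orb.triv] using hu, fun s _ => hW _,
    ⟨1, one_pos, hv.1.mono (subset_univ _), fun s _ => hv.2 s trivial⟩, hW _, uv, by simp,
    by simpa using nc⟩, ⟨B, Finset.empty_subset _, inj⟩, rfl, ?_⟩
  rw [TC.img_eq]
  refine (union_subset_union_right _ (singleton_subset_iff.2 (mem_range_self 0))).antisymm
    (union_subset subset_union_left ?_)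
  rintro _ ⟨s, rfl⟩
  by_cases hs : s = 0
  · exact Or.inr (congrArg v hs)
  · exact Or.inl ⟨_, (uv s hs).symm⟩

theorem quantum_ctx [ConnectedSpace X] (c : Ctx X) (G : Matrix (Fin (c.k + 1)) (Fin (c.k + 1)) ℤ)
    (hg : ∀ i j, c.G i j = G i j) (hG : G.det ≠ 0) (z : Fin (c.k + 1) → ℤ)
    (c1 : ∀ i, c.κ * c.Q c.om (c.e i) = z i) {D : ℕ} (hD : c.κ ^ 2 * c.Q c.om c.om = D)
    (noether : 10 ≤ D + (c.k + 1)) {P : Fin 3 → X} {M : ℕ → (Fin (c.k + 1) → ℤ) →₀ ℕ}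
    (count : Counts c.J0 (fun u => c.κ * per u c.om) c.e G P M)
    {R : Type} [CommRing R] [Algebra (Nov (c.k + 1)) R]
    (hR0 : IsQH G M (fun A => (.single A 1 : Nov (c.k + 1))) R)
    {K : Type} [Field K] [Algebra (Nov (c.k + 1)) K]
    (hK : ∀ A, z ⬝ᵥ A = 0 → algebraMap (Nov (c.k + 1)) K (.single A 1) = 1)
    [IsReduced (K ⊗[Nov (c.k + 1)] R)] {n : ℕ} (L : Fin n → Set X)
    (hL : ∀ i, Pinwheel c.om (L i)) (disj : ∀ i j, i ≠ j → Disjoint (L i) (L j)) :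
    n ≤ Module.finrank K (K ⊗[Nov (c.k + 1)] R) := by
  have eB : ∀ x y, Bf G x y = c.dot x y := fun x y => by simp only [Bf_apply, Ctx.dot, hg]
  have symm : G.IsSymm := Matrix.IsSymm.ext fun i j => by
    have := c.G_symm j i
    rw [hg, hg] at this
    exact_mod_cast this
  obtain ⟨d, hd⟩ : ∃ d, c.Co (c.κ • c.om) d := c.span _ (c.hom.smul c.κ)
  have dA : ∀ A, c.dot d (rv A) = (z ⬝ᵥ A : ℤ) := fun A => by
    obtain ⟨a, h⟩ := hd
    rw [Ctx.dot, Finset.sum_comm]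
    simp only [← Finset.sum_mul, ← Q_basis (c.hom.smul _).1 h, Q_smul_left, c1]
    simp [rv, dotProduct]
  have hD' : c.dot d d = D := by
    rw [← hD, sq, mul_assoc, ← Q_smul_right, ← Q_smul_left, hd.Q hd (c.hom.smul _) (c.hom.smul _)]
  have deg : ∀ (S : TC c c.J0 c.tame0) (A), c.Cls S.u (rv A) → S.c1 = (z ⬝ᵥ A : ℤ) :=
    fun S A h => by rw [S.c1_cls h hd, c.dot_comm, dA]
  have key0 : ∀ m < 4, ∀ A, ∃ Z : Set (Set X), Z.encard = M m A ∧ ∀ C ∈ Z, z ⬝ᵥ A = m + 1 ∧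
      ∃ S : TC c c.J0 c.tame0, S.Simple ∧ c.Cls S.u (rv A) ∧ S.img = C := fun m hm A => by
    refine ⟨_, count m hm A, fun C ⟨u, h1, h2, h3, _⟩ => ?_⟩
    obtain ⟨S, s1, rfl, s2⟩ := h1.tc c fun h => by
      simp only [h, mul_zero] at h2
      exact (Nat.cast_add_one_pos m).ne h2
    have s3 : c.Cls S.u (rv A) := fun j => by
      rw [h3]
      simp only [mulVec, dotProduct, rv, hg, Int.cast_sum, Int.cast_mul]
      exact Finset.sum_congr rfl fun i _ => by rw [symm.apply, mul_comm]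
    refine ⟨?_, S, s1, s3, s2⟩
    have := (deg S A s3).symm.trans h2
    exact_mod_cast this
  have hz : ∀ m < 4, ∀ A, M m A ≠ 0 → z ⬝ᵥ A = m + 1 := fun m hm A h0 => by
    obtain ⟨Z, h1, h2⟩ := key0 m hm A
    obtain ⟨C, hC⟩ := encard_ne_zero.1 (show Z.encard ≠ 0 by rw [h1]; exact_mod_cast h0)
    exact (h2 C hC).1
  obtain ⟨b, hR⟩ := hR0.table hz
  set N := ∑ m ∈ Finset.range 4, M m with hN
  obtain ⟨u, hu⟩ : ∃ u : K, ∀ A, z ⬝ᵥ A = 1 →
      algebraMap (Nov (c.k + 1)) K (.single A 1) = u := by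
    by_cases h : ∃ A0, z ⬝ᵥ A0 = 1
    · obtain ⟨A0, h0⟩ := h
      refine ⟨algebraMap (Nov (c.k + 1)) K (.single A0 1), fun A hA => ?_⟩
      rw [← sub_add_cancel A A0, ← one_mul (1 : ℤ), ← AddMonoidAlgebra.single_mul_single, map_mul,
        hK _ (by rw [dotProduct_sub, hA, h0, sub_self]), one_mul, one_mul]
    · exact ⟨0, fun A hA => (h ⟨A, hA⟩).elim⟩
  have key : ∀ A, 1 ≤ z ⬝ᵥ A ∧ z ⬝ᵥ A ≤ 4 → ∃ Z : Set (Set X), Z.encard = N A ∧ ∀ C ∈ Z,
      ∃ S : TC c c.J0 c.tame0, S.Simple ∧ c.Cls S.u (rv A) ∧ S.img = C := fun A hA => by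
    obtain ⟨Z, h1, h2⟩ := key0 (z ⬝ᵥ A - 1).toNat (by omega) A
    refine ⟨Z, ?_, fun C hC => (h2 C hC).2⟩
    rw [h1, hN, Finsupp.finsetSum_apply, Finset.sum_eq_single (z ⬝ᵥ A - 1).toNat
      (fun m hm hne => ?_) fun h => (h (Finset.mem_range.2 (by omega))).elim]
    by_contra h0
    have := hz m (Finset.mem_range.1 hm) A h0
    omega
  have ex : ∀ A, N A ≠ 0 → 1 ≤ z ⬝ᵥ A ∧ z ⬝ᵥ A ≤ 4 →
      ∃ S : TC c c.J0 c.tame0, S.Simple ∧ c.Cls S.u (rv A) := fun A h0 hA => by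
    obtain ⟨Z, h1, h2⟩ := key A hA
    obtain ⟨C, hC⟩ := encard_ne_zero.1 (show Z.encard ≠ 0 by rw [h1]; exact_mod_cast h0)
    obtain ⟨S, h3, h4, -⟩ := h2 C hC
    exact ⟨S, h3, h4⟩
  have hdA : ∀ A : Fin (c.k + 1) → ℤ, ∑ i, d i * ((G *ᵥ A) i : ℝ) = (z ⬝ᵥ A : ℤ) := fun A => by
    rw [← Bf_rv, eB, dA]
  have dat : Dat G z N d D :=
    { symm := symm
      det := hG
      hd := hdA
      hD := by rw [eB, hD']
      D0 := by
        have := c.dot_pos hd
        rw [hD'] at this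
        exact_mod_cast this
      noether := noether
      pos := fun A B hA hB h1 h2 hne => by
        obtain ⟨S, s1, s2⟩ := ex A hA h1
        obtain ⟨S', s3, s4⟩ := ex B hB h2
        obtain ⟨k, -, hk⟩ := S.cls_pos S' s1 s3 s2 s4
          (fun e => hne (rv_inj (S.cls_eq S' s1 s3 s2 s4 e))) ∅ (by simp)
        rw [← eB, Bf_rv_rv] at hk
        have : A ⬝ᵥ G *ᵥ B = k := by exact_mod_cast hk
        omega
      adj := fun A hA h1 => by
        obtain ⟨S, s1, s2⟩ := ex A hA h1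
        obtain ⟨k, h2, h3, -⟩ := S.cls_adj s1 s2
        rw [deg S A s2, ← eB, Bf_rv_rv] at h2
        have : A ⬝ᵥ G *ᵥ A - z ⬝ᵥ A + 2 = k := by exact_mod_cast h2
        exact ⟨k, h3, by omega⟩
      uniq := fun A hA h1 h2 => by
        obtain ⟨Z, h3, h4⟩ := key A h1
        have : Z.encard ≤ 1 := encard_le_one_iff.2 fun C C' hC hC' => by
          obtain ⟨S, s1, s2, rfl⟩ := h4 C hC
          obtain ⟨S', s3, s4, rfl⟩ := h4 C' hC'
          by_contra hne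
          obtain ⟨k, -, hk⟩ := S.cls_pos S' s1 s3 s2 s4 hne ∅ (by simp)
          rw [← eB, Bf_rv_rv] at hk
          have : A ⬝ᵥ G *ᵥ A = k := by exact_mod_cast hk
          omega
        rw [h3] at this
        have : N A ≤ 1 := by exact_mod_cast this
        omega
      wdvv := hR.wdvv symm hdA
      ne := hR.ne (K := K) }
  obtain ⟨r, A, h1, h2, h3⟩ := dat.good (T := Tq G z N) (fun _ _ => rfl)
    fun x y w E E' => hR.nil hu
  choose S s1 s2 using fun i => ex (A i) (h1 i).1 (by have := (h1 i).2.1; omega)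
  have sum : ∀ x, ∑ i, c.dot (rv (A i)) x = c.dot d x := fun x => by
    simp only [← eB, ← h2, map_sum, LinearMap.sum_apply]
  rw [IsQT.rank b]
  refine fin_main (fun x y => by simp only [← eB]; exact dat.num.hodge) S
    (fun i => ?_) (fun i => ?_) ?_ (fun α hα => ?_) L hL disj
  · obtain ⟨k, e1, -, e2⟩ := (S i).cls_adj (s1 i) (s2 i)
    rw [deg _ _ (s2 i), ← eB, Bf_rv_rv, (h1 i).2.2] at e1
    push_cast at e1
    exact e2.1 (by exact_mod_cast (by linarith : (k : ℝ) = 0))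
  · rw [deg _ _ (s2 i)]
    exact_mod_cast (h1 i).2.1
  · simp only [fun i => (S i).c1_cls (s2 i) hd]
    rw [sum, hD']
    exact_mod_cast h3
  · obtain ⟨x, hx⟩ := c.span α hα
    simp only [fun i => (S i).per_cls (s2 i) hα.1 hx]
    rw [sum, ← hd.Q hx (c.hom.smul _) hα, Q_smul_left]

theorem quantum (X : Type) [TopologicalSpace X] [ChartedSpace E X] [IsManifold 𝓘(ℝ, E) ∞ X]
    [T2Space X] [CompactSpace X] [ConnectedSpace X] [MeasurableSpace X] [BorelSpace X]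
    (om : X → Bil E ℝ) (J : X → E →L[ℝ] E) (μ : Measure X) (κ : ℝ)
    (hom : Closed om) (hJ : Tame univ om J) (hc : ∀ x v w, om x (J x v) (J x w) = om x v w)
    (hμ : IsVol om μ) (hκ : 0 < κ) (mono : IsChern univ J ((2 * Real.pi * κ) • om))
    (b : ℕ) (e : Fin b → X → Bil E ℝ) (he : ∀ i, Closed (e i))
    (span : ∀ α, Closed α → ∃ (c : Fin b → ℝ) (a : X → E →L[ℝ] ℝ),
      IsD univ a (α - ∑ i, c i • e i))
    (g : Matrix (Fin b) (Fin b) ℤ) (hg : g.det ≠ 0) (form : ∀ i j, pair om μ (e i) (e j) = g i j)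
    (z : Fin b → ℤ) (hz : ∀ i, κ * pair om μ om (e i) = z i)
    (noether : ∃ D : ℕ, κ ^ 2 * pair om μ om om = D ∧ 10 ≤ D + b)
    (P : Fin 3 → X) (N : ℕ → (Fin b → ℤ) →₀ ℕ)
    (hN : Counts J (fun u => κ * per u om) e g P N)
    (R : Type) [CommRing R] [Algebra (Nov b) R]
    (hR : IsQH g N (fun A => (.single A 1 : Nov b)) R)
    (K : Type) [Field K] [Algebra (Nov b) K]
    (hK : ∀ A : Fin b → ℤ, z ⬝ᵥ A = 0 → algebraMap (Nov b) K (.single A 1) = 1)
    (ss : IsSemisimpleRing (K ⊗[Nov b] R))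
    (n : ℕ) (L : Fin n → Set X) (hL : ∀ i, Pinwheel om (L i))
    (disj : ∀ i j, i ≠ j → Disjoint (L i) (L j)) : n ≤ Module.finrank K (K ⊗[Nov b] R) := by
  obtain ⟨D, hD, h10⟩ := noether
  rcases b with _ | k
  · have h0 : pair om μ om om ≠ 0 := fun h => by
      rw [h, mul_zero] at hD
      have : 0 = D := by exact_mod_cast hD
      omega
    have ex : ∀ α, Closed α → ∃ a, IsD univ a α := fun α hα => by
      obtain ⟨_, a, h⟩ := span α hα
      exact ⟨a, by simpa using h⟩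
    let c : Ctx X := ⟨om, μ, κ, 0, fun _ => om, J, hom, hJ, hc, hμ, hκ, mono, fun _ => hom,
      fun α hα => ⟨fun _ => 0, by
        rw [Finset.sum_eq_zero fun i _ => zero_smul ℝ om, sub_zero]; exact ex α hα⟩,
      .of fun _ _ => pair om μ om om, fun h => h0 ((Matrix.det_fin_one _).symm.trans h),
      fun _ _ => rfl⟩
    obtain ⟨a, h⟩ := ex om hom
    exact (h0 (Q_exact (c := c) h hom)).elim
  let c : Ctx X := ⟨om, μ, κ, k, e, J, hom, hJ, hc, hμ, hκ, mono, he, span, g.map (↑),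
    by rw [← Int.cast_det]; exact_mod_cast hg, form⟩
  exact quantum_ctx c g (fun _ _ => rfl) hg z hz hD h10 hN hR hK L hL disj

omit [IsManifold 𝓘(ℝ, E) ∞ X] [T2Space X] [CompactSpace X] [BorelSpace X] in
theorem noether_nat {om : X → Bil E ℝ} {μ : Measure X} {κ : ℝ} {b : ℕ}
    (h : ∃ t : ℕ, κ ^ 2 * pair om μ om om + (b + 2) = 12 * (t + 1)) :
    ∃ D : ℕ, κ ^ 2 * pair om μ om om = D ∧ 10 ≤ D + b := by
  obtain ⟨t, h⟩ := h
  have h0 : 0 ≤ κ ^ 2 * pair om μ om om :=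
    mul_nonneg (sq_nonneg _) (integral_nonneg fun x => by
      by_cases e : wedge (om x) (om x) = 0 <;> simp [e])
  have h1 : b + 2 ≤ 12 * (t + 1) := by
    have : (b : ℝ) + 2 ≤ 12 * (t + 1) := by linarith
    exact_mod_cast this
  refine ⟨12 * (t + 1) - (b + 2), ?_, by omega⟩
  rw [Nat.cast_sub h1]
  push_cast
  linarith

end Pool.Agent.Lib.MP_1c0d65_gt.PW
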