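import Pool.Agent.Lib.MP_1c0d65_gt.Q.Full
import Pool.Agent.Lib.MP_1c0d65_gt.PW.QDefs2

/-! The classes of odd degree vanish when the quantum cohomology is a product of fields. -/

set_option autoImplicit false

open scoped Manifold ContDiff Topology TensorProduct
open Set MeasureTheory Matrix

noncomputable section

namespace Pool.Agent.Lib.MP_1c0d65_gt.PW

theorem gw_comm {b : ℕ} {Λ : Type} [CommRing Λ] (g : Matrix (Fin b) (Fin b) ℤ)
    (N : ℕ → (Fin b → ℤ) →₀ ℕ) (w : (Fin b → ℤ) → Λ) (x y : Λ × (Fin b → Λ) × Λ) (m t : ℕ)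
    (A : Fin b → ℤ) : gw g N w x y m t A = gw g N w y x m t A := by
  unfold gw
  split_ifs <;> ring

theorem qmul_comm {b : ℕ} {Λ : Type} [CommRing Λ] {g : Matrix (Fin b) (Fin b) ℤ} (hg : g.IsSymm)
    (N : ℕ → (Fin b → ℤ) →₀ ℕ) (w : (Fin b → ℤ) → Λ) (x y : Λ × (Fin b → Λ) × Λ) :
    qmul g N w x y = qmul g N w y x := by
  unfold qmul
  simp only [gw_comm g N w x y]
  refine Prod.ext (by simp only [mul_comm]) (Prod.ext (by simp only [add_comm]) ?_)
  show _ + _ + _ = _ + _ + _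
  rw [add_comm (x.1 * _), Finset.sum_comm]
  congr 1
  exact Finset.sum_congr rfl fun i _ => Finset.sum_congr rfl fun j _ => by
    rw [hg.apply, mul_comm]

/-- A member of a basis does not have square zero when the base change is reduced. -/
theorem odd_ne {Λ K R : Type} [CommRing Λ] [Field K] [Algebra Λ K] [Ring R] [Algebra Λ R]
    [IsReduced (K ⊗[Λ] R)] (l : R →ₗ[Λ] Λ) {x : R} (hx : x * x = 0) : l x ≠ 1 := fun h => by
  have h0 : (1 : K) ⊗ₜ[Λ] x = 0 := IsReduced.eq_zero _ ⟨2, by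
    rw [pow_two, Algebra.TensorProduct.tmul_mul_tmul, hx, TensorProduct.tmul_zero]⟩
  have := congrArg (fun t => TensorProduct.rid Λ K (l.lTensor K t)) h0
  simp [h] at this

theorem quantum_full (X : Type) [TopologicalSpace X] [ChartedSpace E X] [IsManifold 𝓘(ℝ, E) ∞ X]
    [T2Space X] [CompactSpace X] [ConnectedSpace X] [MeasurableSpace X] [BorelSpace X]
    (om : X → Bil E ℝ) (J : X → E →L[ℝ] E) (μ : Measure X) (κ : ℝ)
    (hom : Closed om) (hJ : Tame univ om J) (hc : ∀ x v w, om x (J x v) (J x w) = om x v w)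
    (hμ : IsVol om μ) (hκ : 0 < κ) (mono : IsChern univ J ((2 * Real.pi * κ) • om))
    (b : ℕ) (e : Fin b → X → Bil E ℝ) (he : ∀ i, Closed (e i))
    (span : ∀ α, Closed α → ∃ (c : Fin b → ℝ) (η : X → E →L[ℝ] ℝ),
      IsD univ η (α - ∑ i, c i • e i))
    (g : Matrix (Fin b) (Fin b) ℤ) (hg : g.det ≠ 0) (form : ∀ i j, pair om μ (e i) (e j) = g i j)
    (z : Fin b → ℤ) (hz : ∀ i, κ * pair om μ om (e i) = z i)
    (a : ℕ) (f : Fin a → X → E →L[ℝ] ℝ) (t : Fin a → Fin a → Fin b → ℤ) (hf : IsH1 e f t)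
    (P : Fin 3 → X) (N : ℕ → (Fin b → ℤ) →₀ ℕ)
    (hN : Counts J (fun u => κ * per u om) e g P N)
    (R : Type) [Ring R] [Algebra (Nov b) R]
    (hR : IsQF g N (fun A => (.single A 1 : Nov b)) t R)
    (K : Type) [Field K] [Algebra (Nov b) K]
    (hK : ∀ A : Fin b → ℤ, z ⬝ᵥ A = 0 → algebraMap (Nov b) K (.single A 1) = 1)
    (m : ℕ) (F : Fin m → Type) [∀ i, Field (F i)] (ss : K ⊗[Nov b] R ≃+* ∀ i, F i)
    (n : ℕ) (L : Fin n → Set X) (hL : ∀ i, Pinwheel om (L i))
    (disj : ∀ i j, i ≠ j → Disjoint (L i) (L j)) : n ≤ Module.finrank K (K ⊗[Nov b] R) := by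
  obtain ⟨φ0, lin, bij, h1, h2⟩ := hR
  let φ := LinearEquiv.ofBijective (lin.mk' φ0) bij
  have : IsReduced (K ⊗[Nov b] R) := isReduced_of_injective ss ss.injective
  rcases a with _ | a
  · have symm : g.IsSymm := Matrix.IsSymm.ext fun i j => by
      have : pair om μ (e j) (e i) = pair om μ (e i) (e j) := by
        simp only [pair, wedge_comm (e j _)]
      rw [form, form] at this
      exact_mod_cast this
    let _ : Unique ((Fin 0 → Nov b) × (Fin 0 → Nov b)) := uniqueOfSubsingleton 0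
    let ψ := (LinearEquiv.prodUnique (R := Nov b) (M := Nov b × (Fin b → Nov b) × Nov b)
      (M₂ := (Fin 0 → Nov b) × (Fin 0 → Nov b))).symm.trans φ
    have hψ : ∀ x y, ψ (qmul g N (fun A => (.single A 1 : Nov b)) x y) = ψ x * ψ y :=
      fun x y => (h1 x y).symm
    let _ : CommRing R := { ‹Ring R› with
      mul_comm := fun u v => by
        obtain ⟨x, rfl⟩ := ψ.surjective u
        obtain ⟨y, rfl⟩ := ψ.surjective v
        rw [← hψ, ← hψ, qmul_comm symm] }
    refine quantum_h1 X om J μ κ hom hJ hc hμ hκ mono b e he span g hg form z hz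
      (fun α hα => ?_) P N hN R ⟨ψ, hψ⟩ K hK ss.symm.isSemisimpleRing n L hL disj
    obtain ⟨c, p, hp, e1⟩ := hf.2.1 α hα
    exact ⟨p, hp, fun x => by rw [← e1]; simp⟩
  · have h0 : t 0 0 = 0 := by
      rcases b with _ | k
      · exact Subsingleton.elim _ _
      let c : Ctx X := ⟨om, μ, κ, k, e, J, hom, hJ, hc, hμ, hκ, mono, he, span, g.map (↑),
        by rw [← Int.cast_det]; exact_mod_cast hg, form⟩
      obtain ⟨η, hη⟩ := hf.2.2 0 0
      refine Matrix.eq_zero_of_vecMul_eq_zero hg (funext fun j => ?_)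
      have := Q_basis (c := c) (α := 0) St.form_zero (r := fun i => t 0 0 i) (a := η)
        (by
          convert hη using 2 with x
          exact ContinuousLinearMap.ext fun v => ContinuousLinearMap.ext fun w => by simp [c]) j
      rw [Q_zero_left] at this
      have e2 : (((t 0 0 ᵥ* g) j : ℤ) : ℝ) = 0 := by
        rw [this]
        simp [vecMul, dotProduct, c]
      exact_mod_cast e2
    refine (odd_ne (K := K) ((LinearMap.proj 0).comp ((LinearMap.fst _ _ _).comp
      ((LinearMap.snd _ _ _).comp φ.symm.toLinearMap))) (x := φ (0, Pi.single 0 1, 0)) ?_ ?_).elim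
    · refine (h2 _ _).trans ((congrArg φ0 ?_).trans lin.map_zero)
      ext k <;> simp [Pi.single_apply, h0, mul_ite]
    · simp

end Pool.Agent.Lib.MP_1c0d65_gt.PW
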