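import Pool.Agent.Lib.MP_1c0d65_gt.Q.Main

/-! The volume is positive; reduction of the Noether inequality to a context. -/

set_option autoImplicit false
set_option linter.unusedSectionVars false

open scoped Manifold ContDiff Topology
open Set MeasureTheory

noncomputable section

namespace Pool.Agent.Lib.MP_1c0d65_gt.PW

variable {X : Type} [TopologicalSpace X] [ChartedSpace E X] [IsManifold 𝓘(ℝ, E) ∞ X]
  [T2Space X] [CompactSpace X] [MeasurableSpace X] [BorelSpace X]
  {om : X → Bil E ℝ} {J : X → E →L[ℝ] E} {μ : Measure X} {κ : ℝ}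

theorem pair_om_ne [Nonempty X] (hom : Closed om) (hJ : Tame univ om J) (hμ : IsVol om μ) :
    pair om μ om om ≠ 0 := by
  have alt : ∀ x v, om x v v = 0 := fun x => hom.1.1 x trivial
  have w1 : ∀ x, wedge (om x) (om x) ≠ 0 := fun x => St.wedge_ne (alt x) fun v hv => by
    by_contra h
    exact ((hJ.1 x trivial v).2 h).ne' (hv _)
  have ct : ∀ x, ContinuousOn (fun y => |wedge (pull2 (par x) om y) (pull2 (par x) om y)|)
      (dom x univ) := fun x =>
    (ContinuousOn.wedge (hom.1.2 x).continuousOn (hom.1.2 x).continuousOn).abs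
  have : IsLocallyFiniteMeasure μ := ⟨fun x => by
    have hx : chartAt E x x ∈ dom x univ := mem_dom (mem_chart_source E x) trivial
    obtain ⟨K, hK, hKd, hKc⟩ := local_compact_nhds ((isOpen_dom x isOpen_univ).mem_nhds hx)
    refine ⟨par x '' K, ?_, ?_⟩
    · have := (chartAt E x).symm.image_mem_nhds (x := chartAt E x x) hx.1 hK
      rwa [(chartAt E x).left_inv (mem_chart_source E x)] at this
    · rw [hμ x K hKc.measurableSet hKd]
      exact (((ct x).mono hKd).integrableOn_compact hKc).lintegral_lt_top⟩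
  rw [pair, integral_congr_ae (g := fun _ => 1) (.of_forall fun x => div_self (w1 x)),
    integral_const, smul_eq_mul, mul_one, Ne, measureReal_eq_zero_iff, Measure.measure_univ_eq_zero]
  rintro rfl
  obtain ⟨x⟩ := ‹Nonempty X›
  have o := isOpen_dom x (isOpen_univ (X := X))
  have h := (hμ x _ o.measurableSet subset_rfl).symm
  rw [Measure.coe_zero, Pi.zero_apply, lintegral_eq_zero_iff'
    ((ct x).aemeasurable o.measurableSet).ennreal_ofReal, Filter.EventuallyEq,
    ae_restrict_iff' o.measurableSet] at h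
  refine (o.measure_pos volume ⟨_, mem_dom (mem_chart_source E x) trivial⟩).ne'
    (measure_mono_null (fun y hy => ?_) (ae_iff.1 h))
  intro k
  have k1 := k hy
  rw [Pi.zero_apply, ENNReal.ofReal_eq_zero, abs_nonpos_iff, wedge_pull2 _ _ (alt _) (alt _)] at k1
  exact mul_ne_zero (by
    obtain ⟨A, hA⟩ := par_inv hy
    rw [← hA]
    exact A.toLinearEquiv.isUnit_det'.ne_zero) (w1 _) k1

theorem noether_of [Nonempty X]
    (H : ∀ c : Ctx X, ∃ d : ℤ, c.κ ^ 2 * c.Q c.om c.om = d ∧ 10 ≤ d + (c.k + 1))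
    (hom : Closed om) (hJ : Tame univ om J) (hc : ∀ x v w, om x (J x v) (J x w) = om x v w)
    (hμ : IsVol om μ) (hκ : 0 < κ) (mono : IsChern univ J ((2 * Real.pi * κ) • om))
    {b : ℕ} {e : Fin b → X → Bil E ℝ} (he : ∀ i, Closed (e i))
    (span : ∀ α, Closed α → ∃ (c : Fin b → ℝ) (a : X → E →L[ℝ] ℝ),
      IsD univ a (α - ∑ i, c i • e i))
    {g : Matrix (Fin b) (Fin b) ℤ} (hg : g.det ≠ 0)
    (form : ∀ i j, pair om μ (e i) (e j) = g i j) :
    ∃ D : ℕ, κ ^ 2 * pair om μ om om = D ∧ 10 ≤ D + b := by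
  rcases b with _ | k
  · have h0 := pair_om_ne hom hJ hμ
    have ex : ∀ α, Closed α → ∃ a, IsD univ a α := fun α hα => by
      obtain ⟨_, a, h⟩ := span α hα
      exact ⟨a, by simpa using h⟩
    let c : Ctx X := ⟨om, μ, κ, 0, fun _ => om, J, hom, hJ, hc, hμ, hκ, mono, fun _ => hom,
      fun α hα => ⟨fun _ => 0, by
        rw [Finset.sum_eq_zero fun i _ => zero_smul ℝ om, sub_zero]; exact ex α hα⟩,
      .of fun _ _ => pair om μ om om, fun h => h0 ((Matrix.det_fin_one _).symm.trans h),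
      fun _ _ => rfl⟩
    obtain ⟨a, h⟩ := ex om hom
    exact (h0 (Q_exact (c := c) h hom)).elim
  let c : Ctx X := ⟨om, μ, κ, k, e, J, hom, hJ, hc, hμ, hκ, mono, he, span, g.map (↑),
    by rw [← Int.cast_det]; exact_mod_cast hg, form⟩
  obtain ⟨d, h1, h2⟩ := H c
  have h3 : (0 : ℝ) < d := h1 ▸ mul_pos (pow_pos hκ 2) c.Q_om_pos
  have h4 : 0 < d := by exact_mod_cast h3
  lift d to ℕ using h4.le
  change 10 ≤ (d : ℤ) + (k + 1) at h2
  exact ⟨d, by exact_mod_cast h1, by omega⟩

end Pool.Agent.Lib.MP_1c0d65_gt.PW
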